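import Mathlib
import Pool.Agent.MP_d8b1b3_co.Core

/-!
The product rule, the sum rule and the passage to Hadamard matrices.
-/

set_option autoImplicit false

namespace Pool.Agent.MP_d8b1b3_co

open Matrix
open scoped Kronecker

structure Good {I : Type} [Fintype I] [DecidableEq I] (c : I → Bool) (l : ℕ)
    (M : ℕ → Matrix I I ℤ) : Prop where
  ok : ∀ s, s < l → OK c (M s)
  pu : PU M l (2 * l)

section

variable {I : Type} [Fintype I] [DecidableEq I]

lemma Adj.submatrix {R : Type} [CommRing R] {J : Type} [Fintype J] [DecidableEq J]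
    {X Y : Matrix I I R} {n : R} (h : Adj X Y n) (e : J ≃ I) :
    Adj (X.submatrix e e) (Y.submatrix e e) n := by
  constructor
  · rw [Matrix.transpose_submatrix, Matrix.submatrix_mul_equiv, h.1]
    simp [Matrix.submatrix_smul]
  · rw [Matrix.transpose_submatrix, Matrix.submatrix_mul_equiv, h.2]
    simp [Matrix.submatrix_smul]

lemma Good.submatrix {J : Type} [Fintype J] [DecidableEq J] {c : I → Bool} {l : ℕ}
    {M : ℕ → Matrix I I ℤ} (h : Good c l M) (e : J ≃ I) :
    Good (fun j => c (e j)) l (fun s => (M s).submatrix e e) := by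
  refine ⟨fun s hs => (h.ok s hs).submatrix e, fun R _ u v huv => ?_⟩
  rw [ev_submatrix, ev_submatrix]
  exact (h.pu R u v huv).submatrix e

lemma kron_tr {R : Type} [CommRing R] {J K : Type} (X : Matrix J J R) (Y : Matrix K K R) :
    (X ⊗ₖ Y)ᵀ = Xᵀ ⊗ₖ Yᵀ := by
  rw [← kroneckerMap_transpose]

lemma Adj.kron_left {R : Type} [CommRing R] {J : Type} [Fintype J] [DecidableEq J]
    {X Y : Matrix I I R} {n : R} (h : Adj X Y n) :
    Adj (X ⊗ₖ (1 : Matrix J J R)) (Y ⊗ₖ (1 : Matrix J J R)) n := by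
  constructor
  · rw [kron_tr, ← mul_kronecker_mul, h.1, smul_kronecker]; simp
  · rw [kron_tr, ← mul_kronecker_mul, h.2, smul_kronecker]; simp

lemma Adj.kron_right {R : Type} [CommRing R] {J : Type} [Fintype J] [DecidableEq J]
    {X Y : Matrix I I R} {n : R} (h : Adj X Y n) :
    Adj ((1 : Matrix J J R) ⊗ₖ X) ((1 : Matrix J J R) ⊗ₖ Y) n := by
  constructor
  · rw [kron_tr, ← mul_kronecker_mul, h.1, kronecker_smul]; simp
  · rw [kron_tr, ← mul_kronecker_mul, h.2, kronecker_smul]; simp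

lemma Good.kron_left {J : Type} [Fintype J] [DecidableEq J] {c : I → Bool} {l : ℕ}
    {M : ℕ → Matrix I I ℤ} (h : Good c l M) (d : J → Bool) :
    Good (fun p : I × J => xor (c p.1) (d p.2)) l (fun s => M s ⊗ₖ (1 : Matrix J J ℤ)) := by
  refine ⟨fun s hs => (h.ok s hs).kron_left d, fun R _ u v huv => ?_⟩
  rw [ev_kron_left, ev_kron_left]
  exact (h.pu R u v huv).kron_left

/-- the two colour halves of a sequence, one after the other -/
def spread (c : I → Bool) (a : ℕ) (M : ℕ → Matrix I I ℤ) : ℕ → Matrix I I ℤ :=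
  cat a (fun s => M s * E c false) (fun s => M s * E c true)

lemma ev_spread {R : Type} [CommRing R] (c : I → Bool) (a : ℕ) (M : ℕ → Matrix I I ℤ) (u : R) :
    ev (spread c a M) (a + a) u = ev M a u * (cst R (E c false) + u ^ a • cst R (E c true)) := by
  rw [spread, ev_cat, ev_mul_right, ev_mul_right, Matrix.mul_add, Matrix.mul_smul]

lemma spread_eq (c : I → Bool) (a : ℕ) (M : ℕ → Matrix I I ℤ) (s : ℕ) (hs : s < a + a) :
    ∃ s' b, s' < a ∧ spread c a M s = M s' * E c b := by
  by_cases h : s < a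
  · exact ⟨s, false, h, by simp [spread, cat, h]⟩
  · exact ⟨s - a, true, by omega, by simp [spread, cat, h]⟩

lemma pow_mul_pow_eq_one {R : Type} [CommRing R] {u v : R} (h : u * v = 1) (n : ℕ) :
    u ^ n * v ^ n = 1 := by rw [← mul_pow, h, one_pow]

lemma PU_spread {c : I → Bool} {a n : ℕ} {M : ℕ → Matrix I I ℤ} (h : PU M a n) :
    PU (spread c a M) (a + a) n := by
  intro R _ u v huv
  rw [ev_spread, ev_spread]
  simpa using (h R u v huv).mul (adj_E c (pow_mul_pow_eq_one huv a))

lemma Good.prod {c : I → Bool} {a b : ℕ} {M N : ℕ → Matrix I I ℤ} (h : Good c a M)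
    (h' : Good c b N) : Good c (2 * a * b) (prd (a + a) (spread c a M) N) := by
  have e : 2 * a * b = (a + a) * b := by ring
  constructor
  · intro s hs
    rw [e] at hs
    have ha : 0 < a + a := Nat.pos_of_mul_pos_right (by omega : 0 < (a + a) * b)
    obtain ⟨s', b', hs', h2⟩ := spread_eq c a M (s % (a + a)) (Nat.mod_lt _ ha)
    rw [prd, h2]
    exact (h.ok s' hs').mul (h'.ok _ ((Nat.div_lt_iff_lt_mul ha).2 (by rwa [mul_comm b]))) b'
  · intro R _ u v huv
    rw [e, ev_prd, ev_prd]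
    have := ((PU_spread (c := c) h.pu) R u v huv).mul
      (h'.pu R _ _ (pow_mul_pow_eq_one huv (a + a)))
    convert this using 1
    push_cast; ring

lemma adj_blocks {R : Type} [CommRing R] {a a' b b' : Matrix I I R} {n m k k' : R}
    (ha : Adj a a' n) (hb : Adj b b' m) (hk : k * k' = 1)
    (h1 : a * b = b * a) (h2 : a'ᵀ * b'ᵀ = b'ᵀ * a'ᵀ) (h3 : a'ᵀ * b = b * a'ᵀ)
    (h4 : b'ᵀ * a = a * b'ᵀ) :
    Adj (fromBlocks a b (-(k • b'ᵀ)) (k • a'ᵀ)) (fromBlocks a' b' (-(k' • bᵀ)) (k' • aᵀ))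
      (n + m) := by
  have hk' : k' * k = 1 := by rw [mul_comm, hk]
  constructor
  · rw [fromBlocks_transpose, fromBlocks_multiply, ← fromBlocks_one, fromBlocks_smul]
    simp only [Matrix.transpose_neg, Matrix.transpose_smul, Matrix.transpose_transpose,
      Matrix.mul_neg, Matrix.neg_mul, Matrix.mul_smul, Matrix.smul_mul, smul_smul, smul_neg,
      neg_neg, ← mul_assoc, hk', one_mul, ha.1, ha.2, hb.1, hb.2, h1, h2, neg_add_cancel,
      smul_zero, add_smul]
    rw [add_comm (m • (1 : Matrix I I R))]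
  · rw [fromBlocks_transpose, fromBlocks_multiply, ← fromBlocks_one, fromBlocks_smul]
    simp only [Matrix.transpose_neg, Matrix.transpose_smul, Matrix.transpose_transpose,
      Matrix.mul_neg, Matrix.neg_mul, Matrix.mul_smul, Matrix.smul_mul, smul_smul, smul_neg,
      neg_neg, ← mul_assoc, hk, one_mul, one_smul, ha.1, ha.2, hb.1, hb.2, h3, h4, add_neg_cancel,
      smul_zero, add_smul]
    rw [add_comm (m • (1 : Matrix I I R))]

lemma add_aux {J : Type} [Fintype J] [DecidableEq J] {c : I → Bool} {d : J → Bool}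
    {A : ℕ → Matrix I I ℤ} {B : ℕ → Matrix J J ℤ} {L n m : ℕ} (hA : PU A L n) (hB : PU B L m)
    (hL : n + m = 2 * L)
    (hcase : ∀ s, s < L →
      (A s = 0 ∧ A (L - 1 - s) = 0 ∧ OK d (B s) ∧ OK d (B (L - 1 - s))) ∨
      (B s = 0 ∧ B (L - 1 - s) = 0 ∧ OK c (A s) ∧ OK c (A (L - 1 - s)))) :
    ∃ N, Good (I := (I × J) ⊕ (I × J))
      (Sum.elim (fun p => xor (c p.1) (d p.2)) (fun p => xor (c p.1) (d p.2))) L N := by
  let A' : ℕ → Matrix (I × J) (I × J) ℤ := fun s => A s ⊗ₖ (1 : Matrix J J ℤ)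
  let B' : ℕ → Matrix (I × J) (I × J) ℤ := fun s => (1 : Matrix I I ℤ) ⊗ₖ B s
  refine ⟨fun s => fromBlocks (A' s) (B' s) (-(rev L B' s)) (rev L A' s), ?_, ?_⟩
  · intro s hs
    rcases hcase s hs with ⟨h1, h2, h3, h4⟩ | ⟨h1, h2, h3, h4⟩
    · have e1 : A' s = 0 := by simp [A', h1]
      have e2 : rev L A' s = 0 := by simp [rev, A', h2]
      rw [e1, e2]
      exact (h3.kron_right c).anti (h4.kron_right c).transpose.neg
    · have e1 : B' s = 0 := by simp [B', h1]
      have e2 : -rev L B' s = 0 := by simp [rev, B', h2]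
      rw [e1, e2]
      exact (h3.kron_left d).diag (h4.kron_left d).transpose
  · intro R _ u v huv
    have hvu : v * u = 1 := by rw [mul_comm, huv]
    rw [ev_fromBlocks, ev_fromBlocks, ev_neg, ev_neg, ev_rev L B' huv, ev_rev L A' huv,
      ev_rev L B' hvu, ev_rev L A' hvu]
    simp only [A', B', ev_kron_left, ev_kron_right]
    have hk : (u ^ L * v) * (v ^ L * u) = 1 := by
      calc (u ^ L * v) * (v ^ L * u) = (u ^ L * v ^ L) * (u * v) := by ring
        _ = 1 := by rw [pow_mul_pow_eq_one huv, huv, one_mul]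
    have := adj_blocks ((hA R u v huv).kron_left (J := J)) ((hB R u v huv).kron_right (J := I)) hk
      (by simp [← mul_kronecker_mul]) (by simp [kron_tr, ← mul_kronecker_mul])
      (by simp [kron_tr, ← mul_kronecker_mul]) (by simp [kron_tr, ← mul_kronecker_mul])
    rw [← hL]
    push_cast
    exact this

lemma Good.add {J : Type} [Fintype J] [DecidableEq J] {c : I → Bool} {d : J → Bool} {a b : ℕ}
    {M : ℕ → Matrix I I ℤ} {N K : ℕ → Matrix J J ℤ} (hM : Good c a M) (hN : Good d b N)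
    (hK : Good d 1 K) :
    ∃ N, Good (I := (I × J) ⊕ (I × J))
      (Sum.elim (fun p => xor (c p.1) (d p.2)) (fun p => xor (c p.1) (d p.2))) (a + 2 * b) N := by
  have e : a + 2 * b = b + (a + b) := by ring
  rw [e]
  apply add_aux (A := cat b (fun _ => 0) (cat a M (fun _ => 0)))
    (B := cat b (fun s => N s * E d false * K 0)
      (cat a (fun _ => 0) (fun s => N s * E d true * K 0))) (n := 2 * a) (m := 4 * b)
  · intro R _ u v huv
    simp only [ev_cat, ev_zero, smul_zero, add_zero, zero_add]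
    exact (hM.pu R u v huv).smul (pow_mul_pow_eq_one huv b)
  · intro R _ u v huv
    have hK' := hK.pu R 1 1 (by simp)
    have e1 : ev K 1 (1 : R) = cst R (K 0) := by simp [ev]
    rw [e1] at hK'
    have key : ∀ w : R, ev (cat b (fun s => N s * E d false * K 0)
        (cat a (fun _ => 0) (fun s => N s * E d true * K 0))) (b + (a + b)) w =
        ev N b w * (cst R (E d false) + w ^ (b + a) • cst R (E d true)) * cst R (K 0) := by
      intro w
      simp only [ev_cat, ev_zero, zero_add, ev_mul_right, smul_smul, Matrix.mul_add,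
        Matrix.add_mul, Matrix.mul_smul, Matrix.smul_mul, pow_add]
    rw [key, key]
    have := ((hN.pu R u v huv).mul (adj_E d (pow_mul_pow_eq_one huv (b + a)))).mul hK'
    convert this using 1
    push_cast; ring
  · ring
  · intro s hs
    have hK0 := hK.ok 0 one_pos
    by_cases h1 : s < b
    · left
      have h2 : ¬ (b + (a + b) - 1 - s < b) := by omega
      have h3 : ¬ (b + (a + b) - 1 - s - b < a) := by omega
      simp only [cat, h1, h2, h3, if_true, if_false, true_and]
      exact ⟨(hN.ok _ h1).mul hK0 _, (hN.ok _ (by omega)).mul hK0 _⟩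
    · by_cases h4 : s - b < a
      · right
        have h2 : ¬ (b + (a + b) - 1 - s < b) := by omega
        have h3 : b + (a + b) - 1 - s - b < a := by omega
        simp only [cat, h1, h2, h3, h4, if_true, if_false, true_and]
        exact ⟨hM.ok _ h4, hM.ok _ h3⟩
      · left
        have h2 : b + (a + b) - 1 - s < b := by omega
        simp only [cat, h1, h2, h4, if_true, if_false, true_and]
        exact ⟨(hN.ok _ (by omega)).mul hK0 _, (hN.ok _ h2).mul hK0 _⟩

end

/-- there is a good sequence of length `l` whose colour classes have `2 ^ t` elements -/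
def G (t l : ℕ) : Prop := ∃ M, Good (I := Bool × Fin (2 ^ t)) Prod.fst l M

lemma G_of {I K : Type} [Fintype I] [DecidableEq I] [Fintype K] {c : I → Bool} {t l : ℕ}
    {M : ℕ → Matrix I I ℤ} (h : Good c l M) (e : Bool × K ≃ I) (hc : ∀ x, c (e x) = x.1)
    (hK : Fintype.card K = 2 ^ t) : G t l := by
  let f : Fin (2 ^ t) ≃ K := (Fintype.equivFinOfCardEq hK).symm
  have := h.submatrix ((Equiv.prodCongr (Equiv.refl Bool) f).trans e)
  refine ⟨_, by convert this using 1; funext x; simp [hc]⟩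

def H2 : Matrix Bool Bool ℤ := fun i j => if i = true ∧ j = true then -1 else 1

lemma H2_tr : H2ᵀ = H2 := by
  ext i j; cases i <;> cases j <;> simp [H2]

lemma H2_mul : H2 * H2 = (2 : ℤ) • (1 : Matrix Bool Bool ℤ) := by
  ext i j; cases i <;> cases j <;> simp [H2, Matrix.mul_apply]

lemma good_H2 : Good (fun b : Bool => b) 1 (fun _ => H2) := by
  have hrow : RowOK (fun b : Bool => b) H2 := by
    intro i b
    refine ⟨b, H2 i b, ?_, rfl, fun j' hj' => ?_⟩
    · unfold H2; split_ifs <;> simp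
    · simp only at hj'
      simp [hj']
  refine ⟨fun _ _ => ⟨hrow, by rw [H2_tr]; exact hrow⟩, fun R _ u v _ => ?_⟩
  have e : ∀ w : R, ev (fun _ => H2) 1 w = cst R H2 := by intro w; simp [ev]
  have e2 : cst R H2 * cst R H2 = ((2 * 1 : ℕ) : R) • (1 : Matrix Bool Bool R) := by
    rw [← cst_mul, H2_mul]
    ext i j
    simp only [cst, Matrix.map_apply, Matrix.smul_apply, Matrix.one_apply, smul_eq_mul]
    split_ifs <;> simp
  rw [e, e]
  constructor <;> rw [← cst_transpose, H2_tr, e2]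

lemma G_one : G 0 1 :=
  G_of (K := Unit) good_H2 (Equiv.prodPUnit Bool) (fun _ => rfl) (by simp)

lemma G.succ {t l : ℕ} (h : G t l) : G (t + 1) l := by
  obtain ⟨M, hM⟩ := h
  exact G_of (K := Fin (2 ^ t) × Bool) (hM.kron_left (fun _ : Bool => false))
    (Equiv.prodAssoc _ _ _).symm (fun x => by simp) (by simp [pow_succ])

lemma G.mono {t t' l : ℕ} (h : G t l) (ht : t ≤ t') : G t' l := by
  induction ht with
  | refl => exact h
  | step _ ih => exact ih.succ

lemma G.mul {t a b : ℕ} (h : G t a) (h' : G t b) : G t (2 * a * b) := by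
  obtain ⟨M, hM⟩ := h
  obtain ⟨N, hN⟩ := h'
  exact ⟨_, hM.prod hN⟩

def sumEquiv (K L : Type) :
    Bool × (Bool × Bool × K × L) ≃ ((Bool × K) × (Bool × L)) ⊕ ((Bool × K) × (Bool × L)) where
  toFun x := if x.2.1 = true then Sum.inl ((xor x.1 x.2.2.1, x.2.2.2.1), (x.2.2.1, x.2.2.2.2))
    else Sum.inr ((xor x.1 x.2.2.1, x.2.2.2.1), (x.2.2.1, x.2.2.2.2))
  invFun y := match y with
    | Sum.inl p => (xor p.1.1 p.2.1, (true, p.2.1, p.1.2, p.2.2))
    | Sum.inr p => (xor p.1.1 p.2.1, (false, p.2.1, p.1.2, p.2.2))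
  left_inv := by
    rintro ⟨a, b, c, k, l⟩
    cases a <;> cases b <;> cases c <;> simp
  right_inv := by
    rintro (⟨⟨a, k⟩, ⟨b, l⟩⟩ | ⟨⟨a, k⟩, ⟨b, l⟩⟩) <;> cases a <;> cases b <;> simp

lemma G.add {t t' a b : ℕ} (h : G t a) (h' : G t' b) : G (t + t' + 2) (a + 2 * b) := by
  obtain ⟨M, hM⟩ := h
  obtain ⟨N, hN⟩ := h'
  obtain ⟨K, hK⟩ := G_one.mono (Nat.zero_le t')
  obtain ⟨P, hP⟩ := hM.add hN hK
  refine G_of hP (sumEquiv _ _) ?_ ?_
  · rintro ⟨a, b, c, k, l⟩
    cases a <;> cases b <;> cases c <;> simp [sumEquiv]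
  · simp [pow_add]; ring

end Pool.Agent.MP_d8b1b3_co
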