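import Mathlib
import Pool.Agent.MP_d8b1b3_co.Rules

/-!
From good sequences to Hadamard matrices.
-/

set_option autoImplicit false

namespace Pool.Agent.MP_d8b1b3_co

open Matrix
open scoped Kronecker

/-- a Hadamard matrix on the index type `I` exists -/
def HadOn (I : Type) [Fintype I] [DecidableEq I] : Prop :=
  ∃ H : Matrix I I ℤ, (∀ i j, H i j = 1 ∨ H i j = -1) ∧
    H * Hᵀ = ((Fintype.card I : ℕ) : ℤ) • (1 : Matrix I I ℤ)

lemma HadOn.of_card {I J : Type} [Fintype I] [DecidableEq I] [Fintype J] [DecidableEq J]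
    (h : HadOn I) (hc : Fintype.card J = Fintype.card I) : HadOn J := by
  obtain ⟨H, h1, h2⟩ := h
  let e : J ≃ I := Fintype.equivOfCardEq hc
  refine ⟨H.submatrix e e, fun i j => h1 _ _, ?_⟩
  rw [Matrix.transpose_submatrix, Matrix.submatrix_mul_equiv, h2, hc]
  ext i j
  simp only [Matrix.submatrix_apply, Matrix.smul_apply, Matrix.one_apply, e.injective.eq_iff]

lemma HadOn.prod {I J : Type} [Fintype I] [DecidableEq I] [Fintype J] [DecidableEq J]
    (h : HadOn I) (h' : HadOn J) : HadOn (I × J) := by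
  obtain ⟨H, h1, h2⟩ := h
  obtain ⟨K, k1, k2⟩ := h'
  refine ⟨H ⊗ₖ K, ?_, ?_⟩
  · rintro ⟨i, j⟩ ⟨i', j'⟩
    rw [kronecker_apply]
    rcases h1 i i' with h | h <;> rcases k1 j j' with k | k <;> simp [h, k]
  · rw [kron_tr, ← mul_kronecker_mul, h2, k2, smul_kronecker, kronecker_smul, one_kronecker_one,
      smul_smul, Fintype.card_prod]
    push_cast; rfl

lemma hadOn_bool : HadOn Bool := by
  refine ⟨H2, fun i j => ?_, ?_⟩
  · unfold H2; split_ifs <;> simp
  · rw [H2_tr, H2_mul]; simp

lemma hadOn_two_pow (t : ℕ) : HadOn (Fin (2 ^ t)) := by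
  induction t with
  | zero =>
    have : HadOn Unit := ⟨1, fun i j => by left; simp, by simp⟩
    exact this.of_card (by simp)
  | succ t ih => exact (ih.prod hadOn_bool).of_card (by simp [pow_succ])

lemma sum_zmod {n : ℕ} [NeZero n] {A : Type} [AddCommMonoid A] (f : ℕ → A) :
    ∑ x : ZMod n, f x.val = ∑ s ∈ Finset.range n, f s := by
  apply Finset.sum_bij (fun x _ => x.val)
  · intro x _; exact Finset.mem_range.2 (ZMod.val_lt x)
  · intro x _ y _ h; exact ZMod.val_injective n h
  · intro s hs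
    exact ⟨(s : ZMod n), Finset.mem_univ _, ZMod.val_cast_of_lt (Finset.mem_range.1 hs)⟩
  · intro x _; rfl

lemma periodize {I : Type} [Fintype I] [DecidableEq I] {n N : ℕ} [NeZero n]
    {Q : ℕ → Matrix I I ℤ}
    (h : ∀ (R : Type) [CommRing R] (u v : R), u * v = 1 → ev Q n u * (ev Q n v)ᵀ = (N : R) • 1) :
    (Matrix.of fun (p q : ZMod n × I) => Q (q.1 - p.1).val p.2 q.2) *
      (Matrix.of fun (p q : ZMod n × I) => Q (q.1 - p.1).val p.2 q.2)ᵀ =
      (N : ℤ) • (1 : Matrix (ZMod n × I) (ZMod n × I) ℤ) := by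
  have h1 := h (AddMonoidAlgebra ℤ (ZMod n)) (AddMonoidAlgebra.single 1 1)
    (AddMonoidAlgebra.single (-1) 1) (by
      rw [AddMonoidAlgebra.single_mul_single]; simp [AddMonoidAlgebra.one_def])
  have hc : ∀ z : ℤ, ((z : ℤ) : AddMonoidAlgebra ℤ (ZMod n)) = AddMonoidAlgebra.single 0 z := by
    intro z
    rw [AddMonoidAlgebra.intCast_def]; simp
  have e1 : ∀ i k, ev Q n (AddMonoidAlgebra.single (1 : ZMod n) (1 : ℤ)) i k =
      ∑ x : ZMod n, AddMonoidAlgebra.single x (Q x.val i k) := by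
    intro i k
    rw [ev_apply, ← sum_zmod]
    apply Finset.sum_congr rfl
    intro x _
    rw [hc, AddMonoidAlgebra.single_pow, AddMonoidAlgebra.single_mul_single]
    simp
  have e2 : ∀ i k, ev Q n (AddMonoidAlgebra.single (-1 : ZMod n) (1 : ℤ)) i k =
      ∑ x : ZMod n, AddMonoidAlgebra.single (-x) (Q x.val i k) := by
    intro i k
    rw [ev_apply, ← sum_zmod]
    apply Finset.sum_congr rfl
    intro x _
    rw [hc, AddMonoidAlgebra.single_pow, AddMonoidAlgebra.single_mul_single]
    simp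
  ext ⟨a, i⟩ ⟨a', j⟩
  have h2 := congrArg (fun z => z.coeff (a' - a)) (congrFun (congrFun h1 i) j)
  simp only [Matrix.mul_apply, Matrix.transpose_apply, e1, e2, Finset.sum_mul_sum,
    AddMonoidAlgebra.single_mul_single, AddMonoidAlgebra.coeff_sum, Finsupp.finsetSum_apply,
    AddMonoidAlgebra.coeff_single, Finsupp.single_apply] at h2
  have h3 : ∀ k, (∑ x : ZMod n, ∑ y : ZMod n,
      if x + -y = a' - a then Q x.val i k * Q y.val j k else 0) =
      ∑ b : ZMod n, Q (b - a).val i k * Q (b - a').val j k := by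
    intro k
    rw [← Equiv.sum_comp (Equiv.subRight a)]
    apply Finset.sum_congr rfl
    intro b _
    rw [Finset.sum_eq_single (b - a')]
    · simp
    · intro y _ hy
      rw [if_neg]
      intro hh
      apply hy
      simp only [Equiv.subRight_apply] at hh
      linear_combination -hh
    · simp
  simp only [h3] at h2
  rw [Matrix.mul_apply, Fintype.sum_prod_type, Finset.sum_comm]
  simp only [Matrix.of_apply, Matrix.transpose_apply]
  rw [h2]
  simp only [Matrix.smul_apply, Matrix.one_apply, Prod.mk.injEq, smul_eq_mul, mul_ite, mul_one,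
    mul_zero]
  by_cases hij : i = j
  · subst hij
    simp only [if_true, and_true, AddMonoidAlgebra.natCast_def, AddMonoidAlgebra.coeff_single,
      Finsupp.single_apply]
    by_cases ha : a = a'
    · simp [ha]
    · rw [if_neg ha, if_neg]
      intro hh
      apply ha
      linear_combination hh
  · simp [hij]

lemma G.had {t l : ℕ} (h : G t l) (hl : 0 < l) : HadOn (Fin (2 ^ (t + 2) * l)) := by
  obtain ⟨M, hM⟩ := h
  obtain ⟨K, k1, k2⟩ : HadOn (Bool × Fin (2 ^ t)) := hadOn_bool.prod (hadOn_two_pow t)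
  have : NeZero (l + l) := ⟨by omega⟩
  let Q : ℕ → Matrix (Bool × Fin (2 ^ t)) (Bool × Fin (2 ^ t)) ℤ :=
    fun s => spread Prod.fst l M s * K
  have hQ : ∀ (R : Type) [CommRing R] (u v : R), u * v = 1 →
      ev Q (l + l) u * (ev Q (l + l) v)ᵀ = ((2 ^ (t + 2) * l : ℕ) : R) • 1 := by
    intro R _ u v huv
    have h1 := (PU_spread (c := Prod.fst) hM.pu R u v huv).1
    have h2 : cst R K * (cst R K)ᵀ = ((2 * 2 ^ t : ℕ) : R) • 1 := by
      rw [← cst_transpose, ← cst_mul, k2]
      ext i j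
      simp only [cst, Matrix.map_apply, Matrix.smul_apply, Matrix.one_apply, smul_eq_mul]
      split_ifs <;> simp
    simp only [Q, ev_mul_right]
    rw [Matrix.transpose_mul, Matrix.mul_assoc, ← Matrix.mul_assoc (cst R K), h2, Matrix.smul_mul,
      Matrix.one_mul, Matrix.mul_smul, h1, smul_smul]
    congr 1
    push_cast; ring
  have hH : HadOn (ZMod (l + l) × (Bool × Fin (2 ^ t))) := by
    refine ⟨_, ?_, (periodize hQ).trans ?_⟩
    · rintro ⟨a, i⟩ ⟨b, j⟩
      simp only [Matrix.of_apply, Q]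
      obtain ⟨s', b', hs', h2⟩ := spread_eq Prod.fst l M (b - a).val (ZMod.val_lt _)
      obtain ⟨k, ε, hε, h3⟩ := (hM.ok s' hs').1.mul_apply i b'
      rw [h2, h3]
      rcases hε with rfl | rfl <;> rcases k1 k j with h | h <;> simp [h]
    · congr 2
      simp [ZMod.card, pow_add]; ring
  exact hH.of_card (by simp [ZMod.card, pow_add]; ring)

end Pool.Agent.MP_d8b1b3_co
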