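import Mathlib
import Pool.Agent.MP_d8b1b3_co.Had

/-!
The arithmetic: every odd number, times a small power of two, is cheap.
-/

set_option autoImplicit false

namespace Pool.Agent.MP_d8b1b3_co

lemma G.two_pow_mul {t a : ℕ} (h : G t a) (e : ℕ) : G t (2 ^ e * a) := by
  induction e with
  | zero => simpa using h
  | succ e ih =>
    have := (G_one.mono (Nat.zero_le t)).mul ih
    convert this using 1
    ring

lemma G.two_pow_mono {t a e e' : ℕ} (h : G t (2 ^ e * a)) (he : e ≤ e') : G t (2 ^ e' * a) := by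
  obtain ⟨d, rfl⟩ := Nat.exists_eq_add_of_le he
  have := h.two_pow_mul d
  convert this using 1
  ring

lemma G_three : G 2 3 := G_one.add G_one

/-- size exponent of the matching elements -/
def sig : ℕ → ℕ
  | 0 => 2
  | i + 1 => 2 * sig i + 2 ^ i

lemma two_sig (i : ℕ) : 2 * sig i = 2 ^ i * (i + 4) := by
  induction i with
  | zero => rfl
  | succ i ih => rw [sig, mul_add, ih]; ring

lemma matching (i : ℕ) : ∀ u : ℤ, Odd u →
    ∃ w : ℕ, (2 : ℤ) ^ (2 ^ i + 1) ∣ u - w ∧ w < 2 ^ sig i ∧ G (2 * i + 2) (2 ^ i * w) := by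
  induction i with
  | zero =>
    intro u hu
    obtain ⟨k, rfl⟩ := hu
    rcases Int.even_or_odd' k with ⟨j, rfl | rfl⟩
    · exact ⟨1, ⟨j, by push_cast; ring⟩, by simp [sig], G_one.mono (by norm_num)⟩
    · exact ⟨3, ⟨j, by push_cast; ring⟩, by simp [sig], G_three⟩
  | succ i ih =>
    intro U hU
    have hai : i < 2 ^ i := Nat.lt_two_pow_self
    obtain ⟨a, ha⟩ : ∃ a, 2 ^ i = a + 1 := ⟨2 ^ i - 1, by omega⟩
    rw [ha] at ih
    have hev : Even ((2 : ℤ) ^ (a + 1)) := ⟨2 ^ a, by ring⟩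
    obtain ⟨y, ⟨z, hz⟩, hy2, hy3⟩ := ih (U + 2 ^ (a + 1)) (hU.add_even hev)
    have hyodd : Odd (y : ℤ) := by
      have : (y : ℤ) = U + (2 ^ (a + 1) - 2 ^ (a + 1 + 1) * z) := by linear_combination -hz
      rw [this]
      exact hU.add_even ⟨2 ^ a - 2 ^ (a + 1) * z, by ring⟩
    have hcop : IsCoprime (y : ℤ) ((2 : ℤ) ^ (a + 1 + 1)) :=
      IsCoprime.pow_right (Int.isCoprime_two_right.2 hyodd)
    obtain ⟨v, k, hvk⟩ := hcop
    have hvodd : Odd v := by
      have h1 : Odd (v * y) := by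
        have : v * y = 1 - k * 2 ^ (a + 1 + 1) := by linear_combination hvk
        rw [this]
        exact odd_one.sub_even ⟨k * 2 ^ (a + 1), by ring⟩
      exact (Int.odd_mul.1 h1).1
    obtain ⟨w, ⟨z', hz'⟩, hw2, hw3⟩ := ih (v * (2 * z - 1)) (hvodd.mul ⟨z - 1, by ring⟩)
    refine ⟨y * (1 + 2 * (2 ^ a * w)), ?_, ?_, ?_⟩
    · have e : 2 ^ (i + 1) + 1 = (a + 1) + (a + 1 + 1) := by rw [pow_succ, ha]; ring
      rw [e]
      refine ⟨k * (2 * z - 1) + y * z', ?_⟩
      push_cast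
      linear_combination hz + (2 : ℤ) ^ (a + 1) * y * hz' - (2 : ℤ) ^ (a + 1) * (2 * z - 1) * hvk
    · have h1 : 1 + 2 * (2 ^ a * w) ≤ 2 ^ (a + 1) * 2 ^ sig i := by
        have h2 : w + 1 ≤ 2 ^ sig i := hw2
        have h3 : 1 ≤ 2 ^ (a + 1) := Nat.one_le_two_pow
        calc 1 + 2 * (2 ^ a * w) ≤ 2 ^ (a + 1) * (w + 1) := by
              have h4 : 2 ^ (a + 1) * (w + 1) = 2 ^ (a + 1) + 2 * (2 ^ a * w) := by ring
              omega
          _ ≤ _ := Nat.mul_le_mul_left _ h2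
      calc y * (1 + 2 * (2 ^ a * w)) < 2 ^ sig i * (2 ^ (a + 1) * 2 ^ sig i) :=
            Nat.mul_lt_mul_of_lt_of_le hy2 h1 (by positivity)
        _ = 2 ^ sig (i + 1) := by rw [sig, ha]; ring
    · rw [← ha] at hy3 hw3
      have h1 : G (2 * i + 2) (2 ^ a * w) := hw3.two_pow_mono (by omega)
      have h2 := G_one.add h1
      have h3 := (hy3.mono (by omega : 2 * i + 2 ≤ 0 + (2 * i + 2) + 2)).mul h2
      convert h3 using 1
      · ring
      · ring

/-- cost of the numbers below `2 ^ sig i` -/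
def cost : ℕ → ℕ
  | 0 => 2
  | i + 1 => cost i + (i / 2 + 4) * (2 * i + 4)

lemma cheap_step (i c : ℕ) (h : ∀ r : ℕ, Odd r → r < 2 ^ sig i → G c (2 ^ i * r)) (k : ℕ) :
    ∀ r : ℕ, Odd r → r < 2 ^ (sig i + k * 2 ^ i) → G (c + k * (2 * i + 4)) (2 ^ i * r) := by
  induction k with
  | zero => simpa using h
  | succ k ih =>
    intro r hr hlt
    by_cases hsmall : r < 2 ^ sig i
    · exact (h r hr hsmall).mono (by omega)
    · have hai : i < 2 ^ i := Nat.lt_two_pow_self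
      obtain ⟨a, ha⟩ : ∃ a, 2 ^ i = a + 1 := ⟨2 ^ i - 1, by omega⟩
      have hev : Even ((2 : ℤ) ^ (a + 1)) := ⟨2 ^ a, by ring⟩
      have hr' : Odd (r : ℤ) := by exact_mod_cast hr
      obtain ⟨w, ⟨z, hz⟩, hw2, hw3⟩ := matching i (r + 2 ^ (a + 1)) (hr'.add_even hev)
      rw [ha] at hz
      have hwr : w < r := by omega
      have h1 : (r : ℤ) = w + 2 ^ (a + 1) * (2 * z - 1) := by linear_combination hz
      have h2 : 0 < 2 * z - 1 := by
        have h3 : (0 : ℤ) < 2 ^ (a + 1) * (2 * z - 1) := by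
          have : (w : ℤ) < r := by exact_mod_cast hwr
          linarith
        exact (pos_iff_pos_of_mul_pos h3).1 (by positivity)
      obtain ⟨r', hr'e⟩ : ∃ r' : ℕ, (r' : ℤ) = 2 * z - 1 := ⟨(2 * z - 1).toNat, by omega⟩
      have hr'odd : Odd r' := by
        have : Odd (r' : ℤ) := ⟨z - 1, by rw [hr'e]; ring⟩
        exact_mod_cast this
      have h4 : r = w + 2 ^ (a + 1) * r' := by
        rw [← hr'e] at h1
        exact_mod_cast h1
      have h5 : r' < 2 ^ (sig i + k * 2 ^ i) := by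
        have h6 : 2 ^ (sig i + (k + 1) * 2 ^ i) = 2 ^ (a + 1) * 2 ^ (sig i + k * 2 ^ i) := by
          rw [← pow_add]; congr 1; rw [← ha]; ring
        rw [h6] at hlt
        exact Nat.lt_of_mul_lt_mul_left (a := 2 ^ (a + 1)) (by omega)
      have h7 := hw3.add ((ih r' hr'odd h5).two_pow_mono (Nat.le_add_right i a))
      convert h7 using 1
      · ring
      · rw [h4]; ring

lemma cheap (i : ℕ) : ∀ r : ℕ, Odd r → r < 2 ^ sig i → G (cost i) (2 ^ i * r) := by
  induction i with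
  | zero =>
    intro r hr hlt
    have h4 : r < 4 := by simpa [sig] using hlt
    obtain ⟨k, rfl⟩ := hr
    have hk : k = 0 ∨ k = 1 := by omega
    rcases hk with rfl | rfl
    · exact G_one.mono (by simp [cost])
    · exact G_three
  | succ i ih =>
    intro r hr hlt
    have h1 : sig (i + 1) ≤ sig i + (i / 2 + 4) * 2 ^ i := by
      have h2 := two_sig i
      have h3 : i + 6 ≤ 2 * (i / 2 + 4) := by omega
      have h4 : 2 ^ i * (i + 6) ≤ 2 ^ i * (2 * (i / 2 + 4)) := Nat.mul_le_mul_left _ h3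
      rw [sig]
      nlinarith
    have h2 := cheap_step i (cost i) ih (i / 2 + 4) r hr
      (lt_of_lt_of_le hlt (Nat.pow_le_pow_right (by norm_num) h1))
    exact h2.two_pow_mono (Nat.le_succ i)

lemma cost_le (i : ℕ) : 3 * (cost i + i + 2) ≤ (i + 5) ^ 3 := by
  have h : 6 * cost i ≤ 2 * i ^ 3 + 27 * i ^ 2 + 67 * i + 12 := by
    induction i with
    | zero => simp [cost]
    | succ i ih =>
      have h3 : 2 * (i / 2 + 4) ≤ i + 8 := by omega
      have h4 : 2 * (i / 2 + 4) * (i + 2) ≤ (i + 8) * (i + 2) := Nat.mul_le_mul_right _ h3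
      rw [cost]
      nlinarith
  nlinarith [Nat.zero_le (i ^ 2), Nat.zero_le i]

lemma main_odd (m t : ℕ) (hm : Odd m) (ht : (Nat.log 2 (Nat.log 2 m) + 5) ^ 3 ≤ 3 * t) :
    HadOn (Fin (2 ^ t * m)) := by
  set i := Nat.log 2 (Nat.log 2 m) with hi
  have h1 : m < 2 ^ (Nat.log 2 m + 1) := Nat.lt_pow_succ_log_self (by norm_num) m
  have h2 : Nat.log 2 m < 2 ^ (i + 1) := Nat.lt_pow_succ_log_self (by norm_num) _
  have h3 : 2 ^ (i + 1) ≤ sig i := by
    have := two_sig i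
    rw [pow_succ]
    nlinarith [Nat.zero_le (2 ^ i * i)]
  have h4 : m < 2 ^ sig i := lt_of_lt_of_le h1 (Nat.pow_le_pow_right (by norm_num) (by omega))
  have h5 := cost_le i
  obtain ⟨d, hd⟩ : ∃ d, t = d + i + 2 ∧ cost i ≤ d := ⟨t - i - 2, by omega, by omega⟩
  have h6 := ((cheap i m hm h4).mono hd.2).had (Nat.mul_pos (by positivity) hm.pos)
  refine h6.of_card ?_
  rw [Fintype.card_fin, Fintype.card_fin, hd.1]
  ring

lemma main (m t : ℕ) (hm : 0 < m) (ht : (Nat.log 2 (Nat.log 2 m) + 5) ^ 3 ≤ 3 * t) :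
    HadOn (Fin (2 ^ t * m)) := by
  obtain ⟨k, m', hm', rfl⟩ := Nat.exists_eq_two_pow_mul_odd hm.ne'
  have h1 : m' ≤ 2 ^ k * m' := Nat.le_mul_of_pos_left _ (by positivity)
  have h2 : Nat.log 2 (Nat.log 2 m') ≤ Nat.log 2 (Nat.log 2 (2 ^ k * m')) :=
    Nat.log_mono_right (Nat.log_mono_right h1)
  have h3 : (Nat.log 2 (Nat.log 2 m') + 5) ^ 3 ≤ 3 * (t + k) :=
    (Nat.pow_le_pow_left (by omega) 3).trans (ht.trans (by omega))
  refine (main_odd m' (t + k) hm' h3).of_card ?_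
  rw [Fintype.card_fin, Fintype.card_fin]
  ring

end Pool.Agent.MP_d8b1b3_co
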