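import Mathlib

/-!
Exponential sums: geometric sums, well spaced points, the bilinear estimate.
-/

set_option autoImplicit false

namespace Pool.Agent.MP_d8b1b3_co

open Finset

noncomputable def ee (x : ℝ) : ℂ := Complex.exp (Complex.I * ((2 * Real.pi * x : ℝ) : ℂ))

lemma ee_add (x y : ℝ) : ee (x + y) = ee x * ee y := by
  unfold ee
  rw [← Complex.exp_add]
  congr 1
  push_cast; ring

lemma ee_zero : ee 0 = 1 := by simp [ee]

lemma norm_ee (x : ℝ) : ‖ee x‖ = 1 := by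
  unfold ee
  exact Complex.norm_exp_I_mul_ofReal _

lemma ee_int (n : ℤ) : ee n = 1 := by
  unfold ee
  rw [← Complex.exp_int_mul_two_pi_mul_I n]
  congr 1
  push_cast; ring

lemma ee_pow (x : ℝ) (n : ℕ) : ee x ^ n = ee (x * n) := by
  induction n with
  | zero => simp [ee_zero]
  | succ n ih => rw [pow_succ, ih, ← ee_add]; congr 1; push_cast; ring

lemma conj_ee (x : ℝ) : (starRingEnd ℂ) (ee x) = ee (-x) := by
  unfold ee
  rw [← Complex.exp_conj, map_mul, Complex.conj_I, Complex.conj_ofReal]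
  congr 1
  push_cast; ring

lemma ee_sum {ι : Type} (s : Finset ι) (f : ι → ℝ) : ee (∑ i ∈ s, f i) = ∏ i ∈ s, ee (f i) := by
  classical
  induction s using Finset.induction_on with
  | empty => simp [ee_zero]
  | insert a s ha ih => rw [sum_insert ha, prod_insert ha, ee_add, ih]

/-- distance to the nearest integer -/
noncomputable def nr (x : ℝ) : ℝ := |x - round x|

lemma nr_le (x : ℝ) (a : ℤ) : nr x ≤ |x - a| := round_le x a

lemma four_nr_le (x : ℝ) : 4 * nr x ≤ ‖ee x - 1‖ := by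
  have h1 : ee x = ee (x - round x) := by
    rw [sub_eq_add_neg, ee_add]
    have := ee_int (-round x)
    push_cast at this
    rw [this, mul_one]
  rw [h1]
  unfold ee nr
  set y := x - round x with hy
  have h2 : |y| ≤ 1 / 2 := abs_sub_round x
  rw [Complex.norm_exp_I_mul_ofReal_sub_one]
  have h3 : 2 * Real.pi * y / 2 = Real.pi * y := by ring
  rw [h3, Real.norm_eq_abs, abs_mul, abs_two]
  have hpi := Real.pi_pos
  have h4 : |Real.pi * y| ≤ Real.pi / 2 := by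
    rw [abs_mul, abs_of_pos hpi]; nlinarith
  have h5 := Real.mul_abs_le_abs_sin h4
  rw [abs_mul, abs_of_pos hpi] at h5
  have h6 : 2 / Real.pi * (Real.pi * |y|) = 2 * |y| := by field_simp
  linarith

lemma geom_le_card (θ : ℝ) (Y : ℕ) : ‖∑ n ∈ range Y, ee (θ * n)‖ ≤ Y := by
  refine (norm_sum_le _ _).trans ?_
  simp [norm_ee]

lemma geom_mul (θ : ℝ) (Y : ℕ) :
    (∑ n ∈ range Y, ee (θ * n)) * (ee θ - 1) = ee (θ * Y) - 1 := by
  simp_rw [← ee_pow]
  exact geom_sum_mul _ _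

lemma geom_le (θ ε : ℝ) (Y : ℕ) (hε : 0 < ε) (h : ε ≤ nr θ) :
    ‖∑ n ∈ range Y, ee (θ * n)‖ ≤ 1 / (2 * ε) := by
  have h1 := congrArg norm (geom_mul θ Y)
  rw [norm_mul] at h1
  have h2 : ‖ee (θ * Y) - 1‖ ≤ 2 := by
    refine (norm_sub_le _ _).trans ?_
    rw [norm_ee, norm_one]; norm_num
  have h3 := four_nr_le θ
  rw [le_div_iff₀ (by positivity)]
  have h4 := norm_nonneg (∑ n ∈ range Y, ee (θ * n))
  nlinarith

lemma orth (D : ℕ) (hD : 0 < D) (m : ℤ) (h : ¬ (D : ℤ) ∣ m) :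
    ∑ r ∈ range D, ee ((m : ℝ) / D * r) = 0 := by
  have h1 := geom_mul ((m : ℝ) / D) D
  have hD' : (0 : ℝ) < D := by exact_mod_cast hD
  rw [div_mul_cancel₀ _ hD'.ne', ee_int, sub_self] at h1
  rcases mul_eq_zero.1 h1 with h2 | h2
  · exact h2
  · exfalso
    have h3 := four_nr_le ((m : ℝ) / D)
    rw [h2, norm_zero] at h3
    have h4 : nr ((m : ℝ) / D) = 0 := le_antisymm (by linarith) (abs_nonneg _)
    unfold nr at h4
    rw [abs_eq_zero, sub_eq_zero, div_eq_iff hD'.ne'] at h4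
    apply h
    refine ⟨round ((m : ℝ) / D), ?_⟩
    have : (m : ℝ) = ((D * round ((m : ℝ) / D) : ℤ) : ℝ) := by push_cast; linarith
    exact_mod_cast this

lemma floor_eq_imp {x y : ℝ} (hx : 0 ≤ x) (hy : 0 ≤ y) (h : ⌊x⌋₊ = ⌊y⌋₊) : |x - y| < 1 := by
  have h1 := Nat.floor_le hx
  have h2 := Nat.floor_le hy
  have h3 := Nat.lt_floor_add_one x
  have h4 := Nat.lt_floor_add_one y
  rw [h] at h1 h3
  rw [abs_lt]; constructor <;> linarith

open Classical in
lemma count_near (γ θ ε : ℝ) (a : ℤ) (q Y : ℕ) (hq : 0 < q) (hcop : IsCoprime a (q : ℤ))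
    (hγ : |q * γ - a| ≤ 1 / q) (hε : 0 ≤ ε) :
    (((range Y).filter (fun n : ℕ => nr (γ * n + θ) ≤ ε)).card : ℝ) ≤
      (2 * Y / q + 1) * (4 * ε * q + 1) := by
  have hq' : (0 : ℝ) < q := by exact_mod_cast hq
  let x : ℕ → ℝ := fun n => γ * n + θ - round (γ * n + θ)
  let F : ℕ → ℕ × ℕ := fun n => (⌊2 * (n : ℝ) / q⌋₊, ⌊2 * q * (x n + ε)⌋₊)
  have hmaps : ∀ n ∈ (range Y).filter (fun n : ℕ => nr (γ * n + θ) ≤ ε),
      F n ∈ range (⌊2 * (Y : ℝ) / q⌋₊ + 1) ×ˢ range (⌊4 * ε * q⌋₊ + 1) := by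
    intro n hn
    rw [mem_filter, mem_range] at hn
    have h1 : (n : ℝ) ≤ Y := by exact_mod_cast hn.1.le
    have h2 : |x n| ≤ ε := hn.2
    rw [abs_le] at h2
    simp only [F, mem_product, mem_range, Nat.lt_succ_iff]
    constructor
    · apply Nat.floor_le_floor; gcongr
    · apply Nat.floor_le_floor; nlinarith
  have hinj : Set.InjOn F ((range Y).filter (fun n : ℕ => nr (γ * n + θ) ≤ ε) : Finset ℕ) := by
    intro n hn m hm hF
    rw [mem_coe, mem_filter] at hn hm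
    have h2 : |x n| ≤ ε := hn.2
    have h3 : |x m| ≤ ε := hm.2
    rw [abs_le] at h2 h3
    simp only [F, Prod.mk.injEq] at hF
    have h4 := floor_eq_imp (by positivity) (by positivity) hF.1
    have h5 := floor_eq_imp (by nlinarith) (by nlinarith) hF.2
    have h6 : |(n : ℝ) - m| < q / 2 := by
      have : 2 * (n : ℝ) / q - 2 * m / q = (2 / q) * (n - m) := by ring
      rw [this, abs_mul, abs_of_pos (by positivity : (0 : ℝ) < 2 / q), div_mul_eq_mul_div,
        div_lt_one hq'] at h4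
      linarith
    have h7 : q * |x n - x m| < 1 / 2 := by
      have : 2 * q * (x n + ε) - 2 * q * (x m + ε) = (2 * q) * (x n - x m) := by ring
      rw [this, abs_mul, abs_of_pos (by positivity : (0 : ℝ) < 2 * q)] at h5
      linarith
    set A : ℤ := round (γ * n + θ) - round (γ * m + θ) with hA
    have h8 : ((a * ((n : ℤ) - m) - q * A : ℤ) : ℝ) =
        q * (x n - x m) - (q * γ - a) * (n - m) := by
      simp only [x, hA]; push_cast; ring
    have h9 : |((a * ((n : ℤ) - m) - q * A : ℤ) : ℝ)| < 1 := by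
      rw [h8]
      refine (abs_sub _ _).trans_lt ?_
      rw [abs_mul, abs_mul, abs_of_pos hq']
      have h10 : |q * γ - a| * |(n : ℝ) - m| ≤ 1 / q * (q / 2) :=
        mul_le_mul hγ h6.le (abs_nonneg _) (by positivity)
      have h11 : 1 / (q : ℝ) * (q / 2) = 1 / 2 := by field_simp
      linarith
    have h10 : a * ((n : ℤ) - m) - q * A = 0 := by
      rw [← Int.cast_abs] at h9
      have : |a * ((n : ℤ) - m) - q * A| < 1 := by exact_mod_cast h9
      exact Int.abs_lt_one_iff.1 this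
    have h11 : (q : ℤ) ∣ (n : ℤ) - m :=
      hcop.symm.dvd_of_dvd_mul_left ⟨A, by linarith⟩
    have h12 : |(n : ℤ) - m| < q := by
      have : |(n : ℝ) - m| < q := by linarith
      exact_mod_cast this
    have h13 := Int.eq_zero_of_abs_lt_dvd h11 h12
    omega
  have hcard := card_le_card_of_injOn F hmaps hinj
  rw [card_product, card_range, card_range] at hcard
  have h1 : (⌊2 * (Y : ℝ) / q⌋₊ : ℝ) ≤ 2 * Y / q := Nat.floor_le (by positivity)
  have h2 : (⌊4 * ε * q⌋₊ : ℝ) ≤ 4 * ε * q := Nat.floor_le (by positivity)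
  calc _ ≤ (((⌊2 * (Y : ℝ) / q⌋₊ + 1) * (⌊4 * ε * q⌋₊ + 1) : ℕ) : ℝ) := by exact_mod_cast hcard
    _ ≤ _ := by push_cast; gcongr

lemma sum_fiber_le {ι : Type} [Fintype ι] (f : ι → ℕ) (Y ν : ℕ) (hf : ∀ i, f i < Y)
    (hν : ∀ n, (univ.filter (fun i => f i = n)).card ≤ ν) (φ : ℕ → ℝ) (hφ : ∀ n, 0 ≤ φ n) :
    ∑ i, φ (f i) ≤ ν * ∑ n ∈ range Y, φ n := by
  rw [← sum_fiberwise_of_maps_to (s := univ) (t := range Y) (g := f)
    (fun i _ => mem_range.2 (hf i)), mul_sum]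
  apply sum_le_sum
  intro n _
  have : ∑ i ∈ univ.filter (fun i => f i = n), φ (f i) =
      (univ.filter (fun i => f i = n)).card * φ n := by
    rw [sum_congr rfl (fun i hi => by rw [(mem_filter.1 hi).2]), sum_const, nsmul_eq_mul]
  rw [this]
  have h1 : ((univ.filter (fun i => f i = n)).card : ℝ) ≤ ν := by exact_mod_cast hν n
  exact mul_le_mul_of_nonneg_right h1 (hφ n)

open Classical in
lemma bilinear {ι : Type} [Fintype ι] (f : ι → ℕ) (Y ν : ℕ) (hf : ∀ i, f i < Y)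
    (hν : ∀ n, (univ.filter (fun i => f i = n)).card ≤ ν) (γ ε M : ℝ) (hε : 0 < ε)
    (hM : ∀ θ : ℝ, (((range Y).filter (fun n : ℕ => nr (γ * n + θ) ≤ ε)).card : ℝ) ≤ M) :
    ‖∑ j, ∑ i, ee (γ * f i * f j)‖ ^ 2 ≤
      (ν : ℝ) ^ 2 * (Fintype.card ι : ℝ) ^ 2 * (Y * M + Y / (2 * ε)) := by
  let F : ℕ → ℂ := fun n => ∑ i, ee (γ * f i * n)
  let K : ℕ → ℕ → ℝ := fun m m' => ‖∑ n ∈ range Y, ee ((γ * m' - γ * m) * n)‖
  have hK : ∀ m, ∑ m' ∈ range Y, K m m' ≤ Y * M + Y / (2 * ε) := by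
    intro m
    have h1 : ∀ m' ∈ range Y, K m m' ≤
        (if nr (γ * m' + -(γ * m)) ≤ ε then (Y : ℝ) else 0) + 1 / (2 * ε) := by
      intro m' _
      split_ifs with h
      · have := geom_le_card (γ * m' - γ * m) Y
        have h2 : 0 ≤ 1 / (2 * ε) := by positivity
        simp only [K]; linarith
      · rw [zero_add]
        exact geom_le _ ε Y hε (by rw [sub_eq_add_neg]; exact (not_le.1 h).le)
    refine (sum_le_sum h1).trans ?_
    rw [sum_add_distrib, ← sum_filter, sum_const, sum_const, card_range, nsmul_eq_mul, nsmul_eq_mul]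
    have h2 := hM (-(γ * m))
    have h3 : (0 : ℝ) ≤ Y := Nat.cast_nonneg Y
    have h4 : (Y : ℝ) * (1 / (2 * ε)) = Y / (2 * ε) := by ring
    nlinarith
  have hF : ∑ n ∈ range Y, ‖F n‖ ^ 2 ≤ Fintype.card ι * (ν * (Y * M + Y / (2 * ε))) := by
    have h1 : ((∑ n ∈ range Y, ‖F n‖ ^ 2 : ℝ) : ℂ) =
        ∑ i, ∑ i', ∑ n ∈ range Y, ee ((γ * f i' - γ * f i) * n) := by
      push_cast
      rw [sum_comm]
      conv_rhs => enter [2, i]; rw [sum_comm]
      rw [sum_comm]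
      apply sum_congr rfl
      intro n _
      rw [← Complex.mul_conj', map_sum, sum_mul_sum]
      apply sum_congr rfl
      intro i _
      apply sum_congr rfl
      intro i' _
      rw [conj_ee, ← ee_add]
      congr 1; ring
    have h2 : ∑ n ∈ range Y, ‖F n‖ ^ 2 ≤ ∑ i, ∑ i', K (f i) (f i') := by
      have h3 : ∑ n ∈ range Y, ‖F n‖ ^ 2 = ‖((∑ n ∈ range Y, ‖F n‖ ^ 2 : ℝ) : ℂ)‖ := by
        rw [Complex.norm_real, Real.norm_eq_abs, abs_of_nonneg (by positivity)]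
      rw [h3, h1]
      exact (norm_sum_le _ _).trans (sum_le_sum fun i _ => norm_sum_le _ _)
    refine h2.trans ?_
    have h4 : ∀ i, ∑ i', K (f i) (f i') ≤ ν * (Y * M + Y / (2 * ε)) := by
      intro i
      refine (sum_fiber_le f Y ν hf hν (K (f i)) (fun n => norm_nonneg _)).trans ?_
      exact mul_le_mul_of_nonneg_left (hK _) (Nat.cast_nonneg _)
    refine (sum_le_sum fun i _ => h4 i).trans ?_
    rw [sum_const, card_univ, nsmul_eq_mul]
  have h5 : ‖∑ j, F (f j)‖ ^ 2 ≤ Fintype.card ι * ∑ j, ‖F (f j)‖ ^ 2 := by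
    have h6 : ‖∑ j, F (f j)‖ ≤ ∑ j, ‖F (f j)‖ := norm_sum_le _ _
    refine (pow_le_pow_left₀ (norm_nonneg _) h6 2).trans ?_
    have := sq_sum_le_card_mul_sum_sq (s := univ) (f := fun j => ‖F (f j)‖)
    rwa [card_univ] at this
  have h7 := sum_fiber_le f Y ν hf hν (fun n => ‖F n‖ ^ 2) (fun n => by positivity)
  have h8 : (0 : ℝ) ≤ Fintype.card ι := Nat.cast_nonneg _
  have h9 : (0 : ℝ) ≤ ν := Nat.cast_nonneg _
  calc ‖∑ j, F (f j)‖ ^ 2 ≤ Fintype.card ι * (ν * (Fintype.card ι * (ν * (Y * M + Y / (2 * ε))))) :=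
        h5.trans (mul_le_mul_of_nonneg_left (h7.trans (mul_le_mul_of_nonneg_left hF h9)) h8)
    _ = _ := by ring

end Pool.Agent.MP_d8b1b3_co
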