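import Mathlib
import Pool.Agent.MP_d8b1b3_co.ExpSum

/-!
The exponential sum over products of primes from a short interval.
-/

set_option autoImplicit false

namespace Pool.Agent.MP_d8b1b3_co

open Finset

/-- product of a tuple -/
def pr {P : Finset ℕ} {s : ℕ} (f : Fin s → P) : ℕ := ∏ i, (f i : ℕ)

lemma sum_split {A : Type} [AddCommMonoid A] (P : Finset ℕ) (a b : ℕ) (F : ℕ → A) :
    ∑ f : Fin (a + b) → P, F (pr f) = ∑ g : Fin a → P, ∑ h : Fin b → P, F (pr g * pr h) := by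
  rw [← (Fin.appendEquiv a b).sum_comp, Fintype.sum_prod_type]
  apply sum_congr rfl
  intro g _
  apply sum_congr rfl
  intro h _
  congr 1
  simp [pr, Fin.prod_univ_add, Fin.appendEquiv]

lemma pr_le {P : Finset ℕ} {s w : ℕ} (hP : ∀ p ∈ P, p ≤ w) (f : Fin s → P) : pr f ≤ w ^ s := by
  have := Finset.prod_le_pow_card (univ : Finset (Fin s)) (fun i => (f i : ℕ)) w
    (fun i _ => hP _ (f i).2)
  simpa [pr] using this

lemma le_pr {P : Finset ℕ} {s w : ℕ} (hP : ∀ p ∈ P, w ≤ p) (f : Fin s → P) : w ^ s ≤ pr f := by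
  have := Finset.pow_card_le_prod (univ : Finset (Fin s)) (fun i => (f i : ℕ)) w
    (fun i _ => hP _ (f i).2)
  simpa [pr] using this

lemma fiber_le {P : Finset ℕ} (hP : ∀ p ∈ P, p.Prime) (v n : ℕ) :
    (univ.filter (fun f : Fin v → P => pr f = n)).card ≤ v ^ v := by
  classical
  rcases (univ.filter (fun f : Fin v → P => pr f = n)).eq_empty_or_nonempty with h | ⟨f0, h0⟩
  · rw [h]; simp
  · have h1 : univ.filter (fun f : Fin v → P => pr f = n) ⊆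
        univ.image (fun σ : Fin v → Fin v => f0 ∘ σ) := by
      intro f hf
      rw [mem_filter] at hf h0
      have h2 : ∀ i, ∃ j, f i = f0 j := by
        intro i
        have h3 : (f i : ℕ) ∣ ∏ j, (f0 j : ℕ) := by
          have : (f i : ℕ) ∣ pr f := Finset.dvd_prod_of_mem (fun j => (f j : ℕ)) (mem_univ i)
          rwa [hf.2, ← h0.2] at this
        obtain ⟨j, _, hj⟩ := (Prime.dvd_finsetProd_iff (hP _ (f i).2).prime _).1 h3
        exact ⟨j, Subtype.ext ((Nat.prime_dvd_prime_iff_eq (hP _ (f i).2) (hP _ (f0 j).2)).1 hj)⟩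
      choose σ hσ using h2
      exact mem_image.2 ⟨σ, mem_univ _, by funext i; exact (hσ i).symm⟩
    refine (card_le_card h1).trans (card_image_le.trans ?_)
    simp

lemma gcd_prod_dvd {ι : Type} (s : Finset ι) (f : ι → ℕ) (q : ℕ) :
    Nat.gcd q (∏ i ∈ s, f i) ∣ ∏ i ∈ s, Nat.gcd q (f i) := by
  classical
  induction s using Finset.induction_on with
  | empty => simp
  | insert a s ha ih =>
    rw [prod_insert ha, prod_insert ha]
    exact (gcd_mul_dvd_mul_gcd q _ _).trans (Nat.mul_dvd_mul_left _ ih)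

lemma gcd_pr_le {P : Finset ℕ} {s : ℕ} {r : ℝ} (q : ℕ) (hq : 0 < q)
    (hP : ∀ p ∈ P, p.Prime ∧ (p : ℝ) ≤ r ^ 2) (f : Fin s → P) :
    (Nat.gcd q (pr f) : ℝ) ≤ (∏ i, if (f i : ℕ) ∣ q then r else 1) ^ 2 := by
  have h1 : Nat.gcd q (pr f) ≤ ∏ i, Nat.gcd q (f i : ℕ) :=
    Nat.le_of_dvd (Finset.prod_pos fun i _ => Nat.gcd_pos_of_pos_left _ hq) (gcd_prod_dvd _ _ q)
  have h2 : (Nat.gcd q (pr f) : ℝ) ≤ ∏ i, (Nat.gcd q (f i : ℕ) : ℝ) := by exact_mod_cast h1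
  refine h2.trans ?_
  rw [← Finset.prod_pow]
  apply Finset.prod_le_prod (fun i _ => Nat.cast_nonneg _)
  intro i _
  obtain ⟨hp, hr⟩ := hP _ (f i).2
  split_ifs with h
  · refine le_trans ?_ hr
    exact_mod_cast Nat.gcd_le_right _ hp.pos
  · have : Nat.gcd q (f i : ℕ) = 1 := ((Nat.Prime.coprime_iff_not_dvd hp).2 h).symm
    rw [this]; simp

lemma good_bound {P : Finset ℕ} (hP : ∀ p ∈ P, p.Prime) (v T : ℕ) (hT : 2 ≤ T)
    (hf : ∀ f : Fin v → P, pr f ≤ T ^ 8) (γ : ℝ) (a : ℤ) (q : ℕ) (hcop : IsCoprime a (q : ℤ))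
    (hq1 : T ^ 2 ≤ q) (hq2 : q ≤ T ^ 14) (hγ : |q * γ - a| ≤ 1 / q) :
    ‖∑ j : Fin v → P, ∑ i : Fin v → P, ee (γ * pr i * pr j)‖ ^ 2 ≤
      ((v ^ v : ℕ) : ℝ) ^ 2 * ((P.card : ℝ) ^ v) ^ 2 * (51 * (T : ℝ) ^ 15) := by
  have hT' : (2 : ℝ) ≤ T := by exact_mod_cast hT
  have hT0 : (0 : ℝ) < T := by linarith
  have hq : 0 < q := lt_of_lt_of_le (by positivity) hq1
  have hq1' : (T : ℝ) ^ 2 ≤ q := by exact_mod_cast hq1
  have hq2' : (q : ℝ) ≤ (T : ℝ) ^ 14 := by exact_mod_cast hq2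
  have hq' : (0 : ℝ) < q := by exact_mod_cast hq
  have hT1 : (1 : ℝ) ≤ T := by linarith
  have hY : ((T ^ 8 + 1 : ℕ) : ℝ) ≤ 2 * (T : ℝ) ^ 8 := by
    have : (1 : ℝ) ≤ (T : ℝ) ^ 8 := one_le_pow₀ hT1
    push_cast; linarith
  have hM : ∀ θ : ℝ, (((range (T ^ 8 + 1)).filter
      (fun n : ℕ => nr (γ * n + θ) ≤ 1 / (T : ℝ) ^ 7)).card : ℝ) ≤ 25 * (T : ℝ) ^ 7 := by
    intro θ
    refine (count_near γ θ _ a q _ hq hcop hγ (by positivity)).trans ?_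
    have h1 : 2 * ((T ^ 8 + 1 : ℕ) : ℝ) / q ≤ 4 * (T : ℝ) ^ 8 / q :=
      div_le_div_of_nonneg_right (by linarith) hq'.le
    have h2 : (4 * (T : ℝ) ^ 8 / q + 1) * (4 * (1 / (T : ℝ) ^ 7) * q + 1) =
        16 * T + 4 * (T : ℝ) ^ 8 / q + 4 * q / (T : ℝ) ^ 7 + 1 := by
      field_simp; ring
    have h3 : 4 * (T : ℝ) ^ 8 / q ≤ 4 * (T : ℝ) ^ 6 := by
      rw [div_le_iff₀ hq']
      have : (T : ℝ) ^ 8 = (T : ℝ) ^ 6 * (T : ℝ) ^ 2 := by ring
      rw [this, mul_assoc]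
      gcongr
    have h4 : 4 * (q : ℝ) / (T : ℝ) ^ 7 ≤ 4 * (T : ℝ) ^ 7 := by
      rw [div_le_iff₀ (by positivity)]
      have : 4 * (T : ℝ) ^ 7 * (T : ℝ) ^ 7 = 4 * (T : ℝ) ^ 14 := by ring
      linarith
    have h5 : (T : ℝ) ≤ (T : ℝ) ^ 7 := le_self_pow₀ hT1 (by norm_num)
    have h6 : (T : ℝ) ^ 6 ≤ (T : ℝ) ^ 7 := pow_le_pow_right₀ hT1 (by norm_num)
    have h7 : (1 : ℝ) ≤ (T : ℝ) ^ 7 := one_le_pow₀ hT1
    calc _ ≤ (4 * (T : ℝ) ^ 8 / q + 1) * (4 * (1 / (T : ℝ) ^ 7) * q + 1) := by gcongr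
      _ ≤ _ := by rw [h2]; linarith
  have hb := bilinear (fun f : Fin v → P => pr f) (T ^ 8 + 1) (v ^ v)
    (fun f => Nat.lt_succ_of_le (hf f)) (fiber_le hP v) γ (1 / (T : ℝ) ^ 7) (25 * (T : ℝ) ^ 7)
    (by positivity) (by intro θ; convert hM θ)
  refine hb.trans ?_
  have hc : (Fintype.card (Fin v → P) : ℝ) = (P.card : ℝ) ^ v := by simp
  rw [hc]
  gcongr
  have h8 : ((T ^ 8 + 1 : ℕ) : ℝ) / (2 * (1 / (T : ℝ) ^ 7)) = ((T ^ 8 + 1 : ℕ) : ℝ) * (T : ℝ) ^ 7 / 2 := by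
    field_simp
  rw [h8]
  have h9 : ((T ^ 8 + 1 : ℕ) : ℝ) * (T : ℝ) ^ 7 ≤ 2 * (T : ℝ) ^ 8 * (T : ℝ) ^ 7 := by gcongr
  nlinarith

lemma bad_bound (T c q q' : ℕ) (a a' : ℤ) (α h X : ℝ) (hT : 2 ≤ T) (hq' : 0 < q')
    (hcop : IsCoprime a (q : ℤ)) (hq'T : q' < T ^ 2)
    (hap : |q' * (α * c) - a'| ≤ 1 / (T : ℝ) ^ 14)
    (hc1 : c * (T : ℝ) ^ 16 ≤ X) (hc2 : X ≤ 3 * c * (T : ℝ) ^ 16) (hc : 0 < c)
    (h1 : (q : ℝ) ≤ h) (h2 : X * |q * α - a| ≤ h) (h3 : h = q ∨ h = X * |q * α - a|)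
    (h4 : h ≤ (T : ℝ) ^ 12) :
    h ≤ 3 * (T : ℝ) ^ 2 * Nat.gcd q c := by
  have hT' : (2 : ℝ) ≤ T := by exact_mod_cast hT
  have hT0 : (0 : ℝ) < T := by linarith
  have hc' : (0 : ℝ) < c := by exact_mod_cast hc
  have hq'' : (0 : ℝ) < q' := by exact_mod_cast hq'
  have hq'T' : (q' : ℝ) ≤ (T : ℝ) ^ 2 := by exact_mod_cast hq'T.le
  have hq0 : (0 : ℝ) ≤ q := Nat.cast_nonneg q
  have hb := abs_nonneg (q * α - a)
  have e1 : ((q * a' - q' * c * a : ℤ) : ℝ) =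
      q' * c * (q * α - a) - q * (q' * (α * c) - a') := by push_cast; ring
  have e2 : (q' : ℝ) * c * |q * α - a| ≤ 1 / (T : ℝ) ^ 2 := by
    rw [le_div_iff₀ (by positivity)]
    have : (q' : ℝ) * c * |q * α - a| * (T : ℝ) ^ 2 * (T : ℝ) ^ 14 ≤ 1 * (T : ℝ) ^ 14 := by
      calc _ = q' * (c * (T : ℝ) ^ 16 * |q * α - a|) := by ring
        _ ≤ (T : ℝ) ^ 2 * (X * |q * α - a|) := by gcongr
        _ ≤ (T : ℝ) ^ 2 * (T : ℝ) ^ 12 := by gcongr; linarith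
        _ = _ := by ring
    exact le_of_mul_le_mul_right this (by positivity)
  have e3 : (q : ℝ) * |q' * (α * c) - a'| ≤ 1 / (T : ℝ) ^ 2 := by
    calc _ ≤ (T : ℝ) ^ 12 * (1 / (T : ℝ) ^ 14) := by gcongr; linarith
      _ = _ := by field_simp
  have e4 : 1 / (T : ℝ) ^ 2 ≤ 1 / 4 := by
    apply one_div_le_one_div_of_le (by norm_num)
    nlinarith
  have e5 : |((q * a' - q' * c * a : ℤ) : ℝ)| < 1 := by
    rw [e1]
    refine (abs_sub _ _).trans_lt ?_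
    rw [abs_mul, abs_mul (q : ℝ), abs_of_nonneg hq0, abs_of_pos (mul_pos hq'' hc')]
    linarith
  have e6 : q * a' - q' * c * a = 0 := by
    rw [← Int.cast_abs] at e5
    have : |(q * a' - q' * c * a : ℤ)| < 1 := by exact_mod_cast e5
    exact Int.abs_lt_one_iff.1 this
  have e7 : (q : ℤ) ∣ q' * c := hcop.symm.dvd_of_dvd_mul_right ⟨a', by linarith⟩
  have e8 : q ∣ q' * c := by exact_mod_cast e7
  have e9 : q ∣ q' * Nat.gcd q c := by
    rw [← Nat.gcd_mul_left]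
    exact Nat.dvd_gcd (Dvd.intro_left _ rfl) e8
  have e10 : q ≤ q' * Nat.gcd q c :=
    Nat.le_of_dvd (Nat.mul_pos hq' (Nat.gcd_pos_of_pos_right _ hc)) e9
  have e11 : (q : ℝ) ≤ q' * (Nat.gcd q c : ℝ) := by exact_mod_cast e10
  have hg : (0 : ℝ) ≤ (Nat.gcd q c : ℝ) := Nat.cast_nonneg _
  rcases h3 with h3 | h3
  · rw [h3]
    have : (q' : ℝ) * (Nat.gcd q c : ℝ) ≤ (T : ℝ) ^ 2 * (Nat.gcd q c : ℝ) := by gcongr
    nlinarith [mul_nonneg (sq_nonneg (T : ℝ)) hg]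
  · rw [h3]
    have e12 : (q' : ℝ) * c * (q * α - a) = q * (q' * (α * c) - a') := by
      rw [e6] at e1
      push_cast at e1
      linarith
    have e13 : (q' : ℝ) * c * |q * α - a| = q * |q' * (α * c) - a'| := by
      have := congrArg abs e12
      rwa [abs_mul, abs_mul (q : ℝ), abs_of_nonneg hq0, abs_of_pos (mul_pos hq'' hc')] at this
    have e14 : (q' : ℝ) * (X * |q * α - a|) ≤ q' * (3 * (T : ℝ) ^ 2 * Nat.gcd q c) := by
      calc (q' : ℝ) * (X * |q * α - a|) ≤ q' * (3 * c * (T : ℝ) ^ 16 * |q * α - a|) := by gcongr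
        _ = 3 * (T : ℝ) ^ 16 * (q' * c * |q * α - a|) := by ring
        _ = 3 * (T : ℝ) ^ 16 * (q * |q' * (α * c) - a'|) := by rw [e13]
        _ ≤ 3 * (T : ℝ) ^ 16 * (q' * (Nat.gcd q c : ℝ) * (1 / (T : ℝ) ^ 14)) := by gcongr
        _ = _ := by field_simp
    exact le_of_mul_le_mul_left e14 hq''

lemma sum_phi_le (P : Finset ℕ) (w u q : ℕ) (ρ : ℝ) (hq : 0 < q) (hu : 0 < u)
    (hP : ∀ p ∈ P, p.Prime ∧ w < p) (hqw : q ≤ w ^ u) (hw : 1 < w)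
    (hπ : (u : ℝ) ^ 2 * ρ ^ 4 ≤ P.card) :
    (∑ p : P, if (p : ℕ) ∣ q then ρ ^ 4 else 1) ≤ P.card * (1 + (u : ℝ)⁻¹) := by
  have hu' : (0 : ℝ) < u := by exact_mod_cast hu
  have h1 : (P.filter (fun p => p ∣ q)).card ≤ u := by
    have h2 : ∏ p ∈ P.filter (fun p => p ∣ q), p ∣ q :=
      Finset.prod_primes_dvd q (fun p hp => (hP p (mem_filter.1 hp).1).1.prime)
        (fun p hp => (mem_filter.1 hp).2)
    have h3 : w ^ (P.filter (fun p => p ∣ q)).card ≤ ∏ p ∈ P.filter (fun p => p ∣ q), p :=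
      Finset.pow_card_le_prod _ _ w (fun p hp => (hP p (mem_filter.1 hp).1).2.le)
    exact (Nat.pow_le_pow_iff_right hw).1 (h3.trans ((Nat.le_of_dvd hq h2).trans hqw))
  rw [Finset.sum_coe_sort P (fun p => if p ∣ q then ρ ^ 4 else 1)]
  have h4 : ∑ p ∈ P, (if p ∣ q then ρ ^ 4 else 1) ≤
      ∑ p ∈ P, (1 + if p ∣ q then ρ ^ 4 else 0) := by
    apply sum_le_sum
    intro p _
    split_ifs <;> simp
  refine h4.trans ?_
  rw [sum_add_distrib, ← sum_filter, sum_const, sum_const, nsmul_eq_mul, nsmul_eq_mul, mul_one,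
    mul_add, mul_one]
  have h5 : ((P.filter (fun p => p ∣ q)).card : ℝ) ≤ u := by exact_mod_cast h1
  have h6 : (u : ℝ) * ρ ^ 4 ≤ P.card * (u : ℝ)⁻¹ := by
    rw [← div_eq_mul_inv, le_div_iff₀ hu']
    nlinarith
  have h7 : ((P.filter (fun p => p ∣ q)).card : ℝ) * ρ ^ 4 ≤ u * ρ ^ 4 := by gcongr
  linarith

/-- the exponential sum over all products of `u` elements of `P` -/
noncomputable def SS (P : Finset ℕ) (u : ℕ) (α : ℝ) : ℂ := ∑ f : Fin u → P, ee (α * pr f)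

lemma key (P : Finset ℕ) (w w' u : ℕ) (ρ α h : ℝ) (a : ℤ) (q : ℕ)
    (hP : ∀ p ∈ P, p.Prime ∧ w < p ∧ p ≤ w') (hρ : ρ ^ 8 = w') (hρ4 : 4 ≤ ρ)
    (hw : ∀ s, s ≤ u → w' ^ s ≤ 3 * w ^ s)
    (hπ : ((u : ℝ) * w') ^ 4 ≤ ρ * (P.card : ℝ) ^ 4)
    (hq : 0 < q) (hcop : IsCoprime a (q : ℤ))
    (h1 : (q : ℝ) ≤ h) (h2 : (w' : ℝ) ^ u * |q * α - a| ≤ h)
    (h3 : h = q ∨ h = (w' : ℝ) ^ u * |q * α - a|)
    (h4 : (w' : ℝ) ^ 16 ≤ h) (h5 : h ^ 2 ≤ (w' : ℝ) ^ u) :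
    ‖SS P u α‖ ^ 96 * h ≤ ((P.card : ℝ) ^ u) ^ 96 := by
  have hρ1 : (1 : ℝ) < ρ := by linarith
  have hρ0 : (0 : ℝ) < ρ := by linarith
  have hw1 : (1 : ℝ) < w' := by rw [← hρ]; exact one_lt_pow₀ hρ1 (by norm_num)
  have hw0 : (0 : ℝ) < w' := by linarith
  have hw8 : (1 : ℝ) < (w' : ℝ) ^ 8 := one_lt_pow₀ hw1 (by norm_num)
  have hh1 : (1 : ℝ) ≤ h := (one_le_pow₀ hw1.le).trans h4
  obtain ⟨s, hs1, hs2⟩ := exists_nat_pow_near hh1 hw8
  rw [← pow_mul] at hs1 hs2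
  have hs : 2 ≤ s := by
    have := (pow_lt_pow_iff_right₀ hw1).1 (h4.trans_lt hs2)
    omega
  have hsu : 16 * s ≤ u := by
    have h6 : ((w' : ℝ) ^ (8 * s)) ^ 2 ≤ h ^ 2 := by gcongr
    rw [← pow_mul] at h6
    have := (pow_le_pow_iff_right₀ hw1).1 (h6.trans h5)
    omega
  obtain ⟨d, hd⟩ : ∃ d, u = d + (8 * s + 8 * s) := ⟨u - 16 * s, by omega⟩
  have hu : 0 < u := by omega
  have hu' : (1 : ℝ) ≤ u := by exact_mod_cast hu
  set π : ℝ := (P.card : ℝ) with hπdef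
  have hπ0 : 0 ≤ π := Nat.cast_nonneg _
  have hπw : π ≤ w' := by
    have : P ⊆ Finset.Icc 1 w' := fun p hp =>
      Finset.mem_Icc.2 ⟨(hP p hp).1.pos, (hP p hp).2.2⟩
    have := card_le_card this
    rw [Nat.card_Icc] at this
    simp only [hπdef]
    exact_mod_cast this
  have hu4 : (u : ℝ) ^ 4 ≤ ρ := by
    have h6 : (u : ℝ) ^ 4 * (w' : ℝ) ^ 4 ≤ ρ * (w' : ℝ) ^ 4 := by
      calc _ = ((u : ℝ) * w') ^ 4 := by ring
        _ ≤ ρ * π ^ 4 := hπ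
        _ ≤ _ := by gcongr
    exact le_of_mul_le_mul_right h6 (by positivity)
  have hπ2 : (u : ℝ) ^ 2 * ρ ^ 4 ≤ π := by
    have h6 : ρ * ((u : ℝ) ^ 2 * ρ ^ 4) ^ 4 ≤ ρ * π ^ 4 := by
      refine le_trans ?_ hπ
      rw [← hρ]
      calc ρ * ((u : ℝ) ^ 2 * ρ ^ 4) ^ 4 = (u : ℝ) ^ 4 * ((u : ℝ) ^ 4 * ρ ^ 17) := by ring
        _ ≤ (u : ℝ) ^ 4 * (ρ * ρ ^ 31) := by gcongr <;> first | exact hρ1.le | norm_num
        _ = _ := by ring
    have h7 := le_of_mul_le_mul_left h6 hρ0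
    exact (pow_le_pow_iff_left₀ (by positivity) hπ0 (by norm_num)).1 h7
  have hw3 : 3 ≤ w := by
    have h6 := hw 1 hu
    rw [pow_one, pow_one] at h6
    have h7 : (4 : ℝ) ^ 8 ≤ ρ ^ 8 := by gcongr
    rw [hρ] at h7
    have h8 : 4 ^ 8 ≤ w' := by exact_mod_cast h7
    omega
  have hqw : q ≤ w ^ u := by
    have h6 : (q : ℝ) ^ 2 ≤ (w' : ℝ) ^ u := le_trans (by gcongr) h5
    have h7 : q ^ 2 ≤ w' ^ u := by exact_mod_cast h6
    have h8 : 3 ≤ w ^ u := hw3.trans (Nat.le_self_pow hu.ne' w)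
    have h9 := hw u le_rfl
    have h10 : q ^ 2 ≤ (w ^ u) ^ 2 := by nlinarith
    exact (Nat.pow_le_pow_iff_left (by norm_num)).1 h10
  have hφ := sum_phi_le P w u q ρ hq hu (fun p hp => ⟨(hP p hp).1, (hP p hp).2.1⟩) hqw
    (by omega) hπ2
  set T : ℕ := w' ^ s with hTdef
  set τ : ℝ := ρ ^ s with hτdef
  have hTτ : (T : ℝ) = τ ^ 8 := by
    rw [hTdef, hτdef, ← pow_mul, mul_comm, pow_mul, hρ]; push_cast; rfl
  have hτ : 16 ≤ τ := by
    calc (16 : ℝ) = 4 ^ 2 := by norm_num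
      _ ≤ ρ ^ 2 := by gcongr
      _ ≤ ρ ^ s := pow_le_pow_right₀ hρ1.le hs
  have hτ0 : 0 < τ := by linarith
  have hτ1 : 1 ≤ τ := by linarith
  have hT2 : 2 ≤ T := by
    have : (2 : ℝ) ≤ T := by
      rw [hTτ]
      have := le_self_pow₀ hτ1 (n := 8) (by norm_num)
      linarith
    exact_mod_cast this
  have hT0 : (0 : ℝ) < T := by rw [hTτ]; positivity
  have hTw : (T : ℝ) = (w' : ℝ) ^ s := by rw [hTdef]; push_cast; rfl
  have hT8 : (T : ℝ) ^ 8 ≤ h := by rw [hTw, ← pow_mul, mul_comm]; exact hs1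
  have hT12 : h ≤ (T : ℝ) ^ 12 := by
    rw [hTw, ← pow_mul]
    exact hs2.le.trans (pow_le_pow_right₀ hw1.le (by omega))
  have hX : (w' : ℝ) ^ u = (w' : ℝ) ^ d * (T : ℝ) ^ 16 := by
    rw [hTw, ← pow_mul, ← pow_add, hd]; congr 1; ring
  -- the numerical inequality for the good case
  have hnum : (((8 * s) ^ (8 * s) : ℕ) : ℝ) ^ 2 * (π ^ (8 * s)) ^ 2 * (51 * (T : ℝ) ^ 15) ≤
      (8 * π ^ (16 * s) / τ ^ 2) ^ 2 := by
    have h6 : (((u : ℝ) * w') ^ 4) ^ (4 * s) ≤ (ρ * π ^ 4) ^ (4 * s) := by gcongr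
    have h7 : (((u : ℝ) * w') ^ 4) ^ (4 * s) = (u : ℝ) ^ (16 * s) * τ ^ 128 := by
      rw [← hρ, hτdef]; ring
    have h8 : (ρ * π ^ 4) ^ (4 * s) = τ ^ 4 * π ^ (16 * s) := by rw [hτdef]; ring
    rw [h7, h8] at h6
    have h9 : (u : ℝ) ^ (16 * s) * τ ^ 124 ≤ π ^ (16 * s) := by
      have : τ ^ 4 * ((u : ℝ) ^ (16 * s) * τ ^ 124) ≤ τ ^ 4 * π ^ (16 * s) := by
        calc _ = (u : ℝ) ^ (16 * s) * τ ^ 128 := by ring
          _ ≤ _ := h6
      exact le_of_mul_le_mul_left this (by positivity)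
    have h10 : (((8 * s) ^ (8 * s) : ℕ) : ℝ) ^ 2 ≤ (u : ℝ) ^ (16 * s) := by
      have : ((8 * s) ^ (8 * s)) ^ 2 ≤ u ^ (16 * s) := by
        rw [← pow_mul]
        calc _ ≤ u ^ (8 * s * 2) := Nat.pow_le_pow_left (by omega) _
          _ = _ := by congr 1; ring
      exact_mod_cast this
    rw [div_pow, le_div_iff₀ (by positivity), hTτ]
    calc _ = 51 * π ^ (16 * s) * ((((8 * s) ^ (8 * s) : ℕ) : ℝ) ^ 2 * τ ^ 124) := by ring
      _ ≤ 51 * π ^ (16 * s) * ((u : ℝ) ^ (16 * s) * τ ^ 124) := by gcongr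
      _ ≤ 64 * π ^ (16 * s) * π ^ (16 * s) := by gcongr; norm_num
      _ = _ := by ring
  have hinner : ∀ c : Fin d → P,
      ‖∑ j : Fin (8 * s) → P, ∑ i : Fin (8 * s) → P, ee (α * pr c * pr i * pr j)‖ ≤
        π ^ (16 * s) * (8 / τ ^ 2) +
          π ^ (16 * s) * (2 / (T : ℝ) ^ 3) * ∏ i, if (c i : ℕ) ∣ q then ρ ^ 4 else 1 := by
    intro c
    have hΦ : (0 : ℝ) ≤ ∏ i, if (c i : ℕ) ∣ q then ρ ^ 4 else 1 :=
      Finset.prod_nonneg fun i _ => by split_ifs <;> positivity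
    obtain ⟨r, hr1, hr2⟩ := Real.exists_rat_abs_sub_le_and_den_le (α * pr c)
      (n := T ^ 14) (by positivity)
    have hden : (0 : ℝ) < r.den := by exact_mod_cast r.den_pos
    have hr3 : |r.den * (α * pr c) - r.num| ≤ 1 / (T : ℝ) ^ 14 := by
      have e : r.den * (α * pr c) - r.num = r.den * (α * pr c - r) := by
        rw [Rat.cast_def r]; field_simp
      rw [e, abs_mul, abs_of_pos hden]
      calc (r.den : ℝ) * |α * pr c - r| ≤ r.den * (1 / ((((T ^ 14 : ℕ) : ℝ) + 1) * r.den)) := by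
            gcongr
        _ = 1 / (((T ^ 14 : ℕ) : ℝ) + 1) := by field_simp
        _ ≤ _ := by
            apply one_div_le_one_div_of_le (by positivity)
            push_cast; linarith
    by_cases hgood : T ^ 2 ≤ r.den
    · have hr4 : |r.den * (α * pr c) - r.num| ≤ 1 / r.den := by
        refine hr3.trans (one_div_le_one_div_of_le hden ?_)
        exact_mod_cast hr2
      have hg := good_bound (fun p hp => (hP p hp).1) (8 * s) T hT2
        (fun f => by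
          rw [hTdef, ← pow_mul, mul_comm s 8]
          exact pr_le (fun p hp => (hP p hp).2.2) f)
        (α * pr c) r.num r.den r.isCoprime_num_den hgood hr2 hr4
      have h6 := (pow_le_pow_iff_left₀ (norm_nonneg _) (by positivity) (by norm_num)).1
        (hg.trans hnum)
      have h7 : 0 ≤ π ^ (16 * s) * (2 / (T : ℝ) ^ 3) * ∏ i, if (c i : ℕ) ∣ q then ρ ^ 4 else 1 := by
        positivity
      have h8 : 8 * π ^ (16 * s) / τ ^ 2 = π ^ (16 * s) * (8 / τ ^ 2) := by ring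
      linarith
    · have hc0 : w ^ d ≤ pr c := le_pr (fun p hp => (hP p hp).2.1.le) c
      have hc1 : pr c ≤ w' ^ d := pr_le (fun p hp => (hP p hp).2.2) c
      have hc2 : w' ^ d ≤ 3 * pr c := (hw d (by omega)).trans (by omega)
      have hc1' : (pr c : ℝ) ≤ (w' : ℝ) ^ d := by exact_mod_cast hc1
      have hc2' : (w' : ℝ) ^ d ≤ 3 * pr c := by exact_mod_cast hc2
      have hb := bad_bound T (pr c) q r.den a r.num α h ((w' : ℝ) ^ u) hT2 r.den_pos hcop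
        (not_le.1 hgood) hr3 (by rw [hX]; gcongr) (by rw [hX]; gcongr)
        (lt_of_lt_of_le (by positivity) hc0) h1 h2 h3 hT12
      have hg := gcd_pr_le (r := ρ ^ 4) q hq (fun p hp => ⟨(hP p hp).1, by
        rw [← pow_mul, hρ]; exact_mod_cast (hP p hp).2.2⟩) c
      set Φ : ℝ := ∏ i, if (c i : ℕ) ∣ q then ρ ^ 4 else 1 with hΦdef
      have h6 : (T : ℝ) ^ 2 * ((T : ℝ) ^ 3) ^ 2 ≤ (T : ℝ) ^ 2 * (2 * Φ) ^ 2 := by
        calc _ = (T : ℝ) ^ 8 := by ring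
          _ ≤ 3 * (T : ℝ) ^ 2 * Nat.gcd q (pr c) := hT8.trans hb
          _ ≤ 4 * (T : ℝ) ^ 2 * Φ ^ 2 := by gcongr; norm_num
          _ = _ := by ring
      have h7 : (T : ℝ) ^ 3 ≤ 2 * Φ :=
        (pow_le_pow_iff_left₀ (by positivity) (by positivity) (by norm_num)).1
          (le_of_mul_le_mul_left h6 (by positivity))
      have h8 : ‖∑ j : Fin (8 * s) → P, ∑ i : Fin (8 * s) → P, ee (α * pr c * pr i * pr j)‖ ≤
          π ^ (16 * s) := by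
        refine (norm_sum_le _ _).trans ((sum_le_sum fun j _ => norm_sum_le _ _).trans ?_)
        simp only [norm_ee, sum_const, card_univ, Fintype.card_fun, Fintype.card_coe,
          Fintype.card_fin, nsmul_eq_mul, mul_one]
        push_cast
        apply le_of_eq
        rw [← hπdef]; ring
      have h9 : π ^ (16 * s) * 1 ≤ π ^ (16 * s) * (2 / (T : ℝ) ^ 3 * Φ) := by
        gcongr
        rw [div_mul_eq_mul_div, le_div_iff₀ (by positivity)]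
        linarith
      have h10 : 0 ≤ π ^ (16 * s) * (8 / τ ^ 2) := by positivity
      rw [mul_assoc (π ^ (16 * s))]
      linarith
  have hS : ‖SS P u α‖ ≤ π ^ u / τ := by
    have e1 : SS P u α = ∑ c : Fin d → P,
        ∑ j : Fin (8 * s) → P, ∑ i : Fin (8 * s) → P, ee (α * pr c * pr i * pr j) := by
      subst hd
      unfold SS
      rw [sum_split P d _ (fun n => ee (α * n))]
      apply sum_congr rfl
      intro c _
      rw [sum_split P _ _ (fun n => ee (α * (pr c * n : ℕ)))]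
      apply sum_congr rfl
      intro j _
      apply sum_congr rfl
      intro i _
      congr 1
      push_cast; ring
    rw [e1]
    refine (norm_sum_le _ _).trans ((sum_le_sum fun c _ => hinner c).trans ?_)
    rw [sum_add_distrib, sum_const, ← mul_sum,
      ← Fintype.sum_pow (fun p : P => if (p : ℕ) ∣ q then ρ ^ 4 else 1) d]
    simp only [card_univ, Fintype.card_fun, Fintype.card_coe,
      Fintype.card_fin, nsmul_eq_mul]
    push_cast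
    rw [← hπdef]
    have h6 : (∑ p : P, if (p : ℕ) ∣ q then ρ ^ 4 else 1) ^ d ≤ π ^ d * 3 := by
      have h7 : (0 : ℝ) ≤ ∑ p : P, if (p : ℕ) ∣ q then ρ ^ 4 else 1 :=
        sum_nonneg fun i _ => by split_ifs <;> positivity
      calc _ ≤ (π * (1 + (u : ℝ)⁻¹)) ^ d := by gcongr
        _ = π ^ d * (1 + (u : ℝ)⁻¹) ^ d := mul_pow _ _ _
        _ ≤ π ^ d * (1 + (u : ℝ)⁻¹) ^ u := by
            gcongr
            · have : 0 ≤ (u : ℝ)⁻¹ := by positivity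
              linarith
            · omega
        _ ≤ π ^ d * 3 := by
            gcongr
            exact Real.one_add_inv_pow_le_exp.trans Real.exp_one_lt_three.le
    have h8 : π ^ u = π ^ d * π ^ (16 * s) := by rw [hd]; ring
    have h9 : 8 / τ ^ 2 + 6 / (T : ℝ) ^ 3 ≤ 1 / τ := by
      have h10 : 6 / (T : ℝ) ^ 3 ≤ 6 / τ ^ 2 := by
        gcongr
        rw [hTτ, ← pow_mul τ 8 3]
        exact pow_le_pow_right₀ hτ1 (by norm_num)
      have h11 : 8 / τ ^ 2 + 6 / τ ^ 2 ≤ 1 / τ := by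
        rw [← add_div, div_le_div_iff₀ (by positivity) hτ0]
        nlinarith
      linarith
    calc _ ≤ π ^ d * (π ^ (16 * s) * (8 / τ ^ 2)) +
          π ^ (16 * s) * (2 / (T : ℝ) ^ 3) * (π ^ d * 3) := by gcongr
      _ = π ^ u * (8 / τ ^ 2 + 6 / (T : ℝ) ^ 3) := by rw [h8]; ring
      _ ≤ π ^ u * (1 / τ) := by gcongr
      _ = _ := by ring
  have h6 : h ≤ τ ^ 96 := by
    rw [hTτ, ← pow_mul] at hT12
    exact hT12
  calc ‖SS P u α‖ ^ 96 * h ≤ (π ^ u / τ) ^ 96 * τ ^ 96 :=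
        mul_le_mul (pow_le_pow_left₀ (norm_nonneg _) hS 96) h6 (by linarith)
          (pow_nonneg (div_nonneg (pow_nonneg hπ0 u) hτ0.le) 96)
    _ = _ := by rw [div_pow, div_mul_cancel₀ _ (pow_pos hτ0 96).ne']

end Pool.Agent.MP_d8b1b3_co
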