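import Mathlib
import Pool.Agent.MP_d8b1b3_co.Key

/-!
Every residue modulo a suitable prime power is a sum of 864 products of primes from the interval.
-/

set_option autoImplicit false

namespace Pool.Agent.MP_d8b1b3_co

open Finset

lemma sum_psi (N : ℕ) : ∑ n ∈ range N, (1 : ℝ) / ((n + 1) * (n + 2)) ≤ 1 := by
  have : ∑ n ∈ range N, (1 : ℝ) / ((n + 1) * (n + 2)) = 1 - 1 / (N + 1) := by
    induction N with
    | zero => simp
    | succ N ih => rw [sum_range_succ, ih]; push_cast; field_simp; ring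
  rw [this]
  have : (0 : ℝ) ≤ 1 / (N + 1) := by positivity
  linarith

lemma sum_inv (R : Finset ℕ) (x : ℕ → Fin 4 → ℕ) (h : ℕ → ℝ) (H : ℝ) (hH : 4 ≤ H)
    (hinj : Set.InjOn x R) (hx : ∀ r ∈ R, ∀ i, (x r i : ℝ) ≤ h r) (hh : ∀ r ∈ R, H ≤ h r) :
    ∑ r ∈ R, 1 / h r ^ 9 ≤ 16 / H := by
  classical
  let ψ : ℕ → ℝ := fun n => 1 / ((n + 1) * (n + 2))
  have hψ : ∀ n, 0 ≤ ψ n := fun n => by positivity
  let N := R.sup (fun r => univ.sup (x r)) + 1
  have h1 : ∀ r ∈ R, 1 / h r ^ 9 ≤ 16 / H * ∏ i, ψ (x r i) := by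
    intro r hr
    have h2 := hh r hr
    have h3 : 0 < h r := by linarith
    have h4 : ∀ i, 1 / (2 * h r ^ 2) ≤ ψ (x r i) := by
      intro i
      apply one_div_le_one_div_of_le (by positivity)
      have h5 := hx r hr i
      have h6 : ((x r i : ℝ) + 1) * (x r i + 2) ≤ (h r + 1) * (h r + 2) := by gcongr
      nlinarith
    have h5 : (1 / (2 * h r ^ 2)) ^ 4 ≤ ∏ i, ψ (x r i) := by
      have := Finset.prod_le_prod (s := (univ : Finset (Fin 4))) (f := fun _ => 1 / (2 * h r ^ 2))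
        (g := fun i => ψ (x r i)) (fun i _ => by positivity) (fun i _ => h4 i)
      simpa using this
    calc 1 / h r ^ 9 = 16 / h r * (1 / (2 * h r ^ 2)) ^ 4 := by field_simp; ring
      _ ≤ _ := by gcongr
  refine (sum_le_sum h1).trans ?_
  rw [← mul_sum]
  have h2 : ∑ r ∈ R, ∏ i, ψ (x r i) ≤ 1 := by
    rw [← sum_image (f := fun y : Fin 4 → ℕ => ∏ i, ψ (y i)) hinj]
    have h3 : R.image x ⊆ Fintype.piFinset (fun _ : Fin 4 => range N) := by
      intro y hy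
      obtain ⟨r, hr, rfl⟩ := mem_image.1 hy
      rw [Fintype.mem_piFinset]
      intro i
      rw [mem_range, Nat.lt_succ_iff]
      exact (Finset.le_sup (f := x r) (mem_univ i)).trans
        (Finset.le_sup (f := fun r => univ.sup (x r)) hr)
    refine (sum_le_sum_of_subset_of_nonneg h3
      (fun y _ _ => Finset.prod_nonneg fun i _ => hψ _)).trans ?_
    rw [← Finset.sum_pow']
    exact pow_le_one₀ (sum_nonneg fun n _ => hψ n) (sum_psi N)
  have h3 : 0 ≤ 16 / H := by positivity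
  nlinarith

lemma arc (P : Finset ℕ) (w w' u p K : ℕ) (ρ : ℝ)
    (hP : ∀ p ∈ P, p.Prime ∧ w < p ∧ p ≤ w') (hρ : ρ ^ 8 = w') (hρ4 : 4 ≤ ρ)
    (hw : ∀ s, s ≤ u → w' ^ s ≤ 3 * w ^ s)
    (hπ : ((u : ℝ) * w') ^ 4 ≤ ρ * (P.card : ℝ) ^ 4)
    (hp : p.Prime) (hpw : w' ^ 16 < p) (hD : p ^ K * w' ^ 16 ≤ w' ^ u)
    (r : ℕ) (hr0 : 0 < r) (hr : r < p ^ K) :
    ∃ (x : Fin 4 → ℕ) (h : ℝ), 0 < x 0 ∧ x 0 * r + x 3 = x 1 * p ^ K + x 2 ∧
      (∀ i, (x i : ℝ) ≤ h) ∧ (w' : ℝ) ^ 16 ≤ h ∧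
      ‖SS P u ((r : ℝ) / (p ^ K : ℕ))‖ ^ 96 * h ≤ ((P.card : ℝ) ^ u) ^ 96 := by
  have hw1 : (1 : ℝ) < w' := by rw [← hρ]; exact one_lt_pow₀ (by linarith) (by norm_num)
  have hw1' : 1 < w' := by exact_mod_cast hw1
  set D : ℕ := p ^ K with hDdef
  set X : ℕ := w' ^ u with hXdef
  have hD0 : 0 < D := by omega
  have hD0' : (0 : ℝ) < D := by exact_mod_cast hD0
  have hX0 : 0 < X := by positivity
  have hXr : (X : ℝ) = (w' : ℝ) ^ u := by rw [hXdef]; push_cast; rfl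
  have hn : 0 < Nat.sqrt X := Nat.sqrt_pos.2 hX0
  set α : ℝ := (r : ℝ) / D with hα
  obtain ⟨z, hz1, hz2⟩ := Real.exists_rat_abs_sub_le_and_den_le α hn
  set q := z.den with hq
  set a := z.num with ha
  have hq0 : 0 < q := z.den_pos
  have hq0' : (0 : ℝ) < q := by exact_mod_cast hq0
  have hcop : IsCoprime a (q : ℤ) := z.isCoprime_num_den
  have h1 : |q * α - a| ≤ 1 / ((Nat.sqrt X : ℝ) + 1) := by
    have e : q * α - a = q * (α - z) := by
      rw [Rat.cast_def z, ← hq, ← ha]; field_simp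
    rw [e, abs_mul, abs_of_pos hq0']
    calc (q : ℝ) * |α - z| ≤ q * (1 / (((Nat.sqrt X : ℝ) + 1) * q)) := by gcongr
      _ = _ := by field_simp
  have hn' : (1 : ℝ) ≤ Nat.sqrt X := by exact_mod_cast hn
  have h1' : |q * α - a| ≤ 1 / 2 :=
    h1.trans (one_div_le_one_div_of_le (by norm_num) (by linarith))
  have hα0 : 0 ≤ α := by positivity
  have hα1 : α ≤ 1 := by
    rw [hα, div_le_one hD0']; exact_mod_cast hr.le
  have ha0 : 0 ≤ a := by
    have h2 : (-1 : ℝ) < a := by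
      have := (abs_le.1 h1').2
      have : 0 ≤ q * α := by positivity
      linarith
    have : (-1 : ℤ) < a := by exact_mod_cast h2
    omega
  have haq : a ≤ q := by
    have h2 : (a : ℝ) < q + 1 := by
      have := (abs_le.1 h1').1
      have : q * α ≤ q := by nlinarith
      linarith
    have : a < (q : ℤ) + 1 := by exact_mod_cast h2
    omega
  set b : ℤ := q * r - a * D with hb
  have h2 : (X : ℝ) * |q * α - a| = X / D * |(b : ℝ)| := by
    have : q * α - a = (b : ℝ) / D := by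
      rw [hb, hα]; push_cast; field_simp
    rw [this, abs_div, abs_of_pos hD0']; ring
  have h3 : (w' : ℝ) ^ 16 ≤ X / D := by
    rw [le_div_iff₀ hD0']
    have : w' ^ 16 * D ≤ X := by rw [mul_comm]; exact hD
    exact_mod_cast this
  have h4 : (1 : ℝ) ≤ (w' : ℝ) ^ 16 := one_le_pow₀ hw1.le
  set h : ℝ := max (q : ℝ) (X * |q * α - a|) with hh
  have hqh : (q : ℝ) ≤ h := le_max_left _ _
  have hXh : X * |q * α - a| ≤ h := le_max_right _ _
  have hbh : |(b : ℝ)| ≤ h := by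
    refine le_trans ?_ hXh
    rw [h2]
    have := abs_nonneg (b : ℝ)
    nlinarith
  have hH : (w' : ℝ) ^ 16 ≤ h := by
    by_cases hb0 : b = 0
    · refine le_trans ?_ hqh
      have h5 : (q : ℤ) ∣ (D : ℤ) := hcop.symm.dvd_of_dvd_mul_left ⟨r, by linarith⟩
      have h6 : q ∣ p ^ K := by exact_mod_cast h5
      obtain ⟨j, _, hj⟩ := (Nat.dvd_prime_pow hp).1 h6
      have h7 : j ≠ 0 := by
        rintro rfl
        rw [pow_zero] at hj
        have h8 : (D : ℤ) ∣ (r : ℤ) := ⟨a, by rw [hj] at hb; push_cast at hb; linarith⟩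
        have h9 : D ∣ r := by exact_mod_cast h8
        have := Nat.le_of_dvd hr0 h9
        omega
      have h8 : w' ^ 16 ≤ q := by
        rw [hj]; exact hpw.le.trans (Nat.le_self_pow h7 p)
      exact_mod_cast h8
    · refine le_trans ?_ hXh
      rw [h2]
      have h5 : (1 : ℝ) ≤ |(b : ℝ)| := by
        have : 1 ≤ |b| := Int.one_le_abs hb0
        exact_mod_cast this
      nlinarith
  have hsq : h ^ 2 ≤ (X : ℝ) := by
    rcases max_choice (q : ℝ) (X * |q * α - a|) with h5 | h5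
    · rw [hh, h5]
      have : q ^ 2 ≤ X := (Nat.pow_le_pow_left hz2 2).trans (Nat.sqrt_le' X)
      exact_mod_cast this
    · rw [hh, h5]
      have h6 : (X : ℝ) ≤ ((Nat.sqrt X : ℝ) + 1) ^ 2 := by
        have := (Nat.lt_succ_sqrt' X).le
        exact_mod_cast this
      have hX0' : (0 : ℝ) < X := by exact_mod_cast hX0
      calc ((X : ℝ) * |q * α - a|) ^ 2 ≤ (X * (1 / ((Nat.sqrt X : ℝ) + 1))) ^ 2 := by gcongr
        _ = X * (X / ((Nat.sqrt X : ℝ) + 1) ^ 2) := by field_simp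
        _ ≤ X * 1 := by gcongr; rwa [div_le_one (by positivity)]
        _ = X := mul_one _
  have hk := key P w w' u ρ α h a q hP hρ hρ4 hw hπ hq0 hcop hqh (hXr ▸ hXh)
    (by rw [← hXr]; exact max_choice _ _) hH (hXr ▸ hsq)
  refine ⟨![q, a.toNat, b.toNat, (-b).toNat], h, hq0, ?_, ?_, hH, hk⟩
  · show q * r + (-b).toNat = a.toNat * D + b.toNat
    zify
    rw [Int.toNat_of_nonneg ha0]
    have := Int.toNat_sub_toNat_neg b
    linarith
  · have h5 : ∀ c : ℤ, ((c.toNat : ℕ) : ℝ) ≤ |(c : ℝ)| := by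
      intro c
      have : ((c.toNat : ℕ) : ℤ) ≤ |c| := by
        rcases le_total 0 c with h | h
        · rw [Int.toNat_of_nonneg h]; exact le_abs_self c
        · rw [Int.toNat_of_nonpos h]; exact abs_nonneg c
      exact_mod_cast this
    intro i
    fin_cases i
    · exact hqh
    · refine le_trans ?_ hqh
      have : a.toNat ≤ q := by omega
      show ((a.toNat : ℕ) : ℝ) ≤ q
      exact_mod_cast this
    · exact (h5 b).trans hbh
    · refine (h5 (-b)).trans ?_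
      push_cast
      rwa [abs_neg]

lemma cover (P : Finset ℕ) (w w' u p K : ℕ) (ρ : ℝ)
    (hP : ∀ p ∈ P, p.Prime ∧ w < p ∧ p ≤ w') (hρ : ρ ^ 8 = w') (hρ4 : 4 ≤ ρ)
    (hw : ∀ s, s ≤ u → w' ^ s ≤ 3 * w ^ s)
    (hπ : ((u : ℝ) * w') ^ 4 ≤ ρ * (P.card : ℝ) ^ 4) (hne : P.Nonempty)
    (hp : p.Prime) (hpw : w' ^ 16 < p) (hD : p ^ K * w' ^ 16 ≤ w' ^ u) (t : ℕ) :
    ∃ F : Fin 864 → Fin u → P, ((p ^ K : ℕ) : ℤ) ∣ (∑ i, (pr (F i) : ℤ)) - t := by
  by_contra hcon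
  push Not at hcon
  set D : ℕ := p ^ K with hDdef
  have hD0 : 0 < D := pow_pos hp.pos K
  have h1 : ∑ F : Fin 864 → Fin u → P, ∑ r ∈ range D,
      ee ((((∑ i, (pr (F i) : ℤ)) - t : ℤ) : ℝ) / D * r) = 0 :=
    sum_eq_zero fun F _ => orth D hD0 _ (hcon F)
  rw [sum_comm] at h1
  have h2 : ∀ r : ℕ, ∑ F : Fin 864 → Fin u → P,
      ee ((((∑ i, (pr (F i) : ℤ)) - t : ℤ) : ℝ) / D * r) =
        SS P u ((r : ℝ) / D) ^ 864 * ee (-(t : ℝ) / D * r) := by
    intro r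
    rw [SS, Fintype.sum_pow, sum_mul]
    apply sum_congr rfl
    intro F _
    rw [← ee_sum, ← ee_add]
    refine congrArg ee ?_
    push_cast
    rw [← mul_sum]
    generalize (∑ i, (pr (F i) : ℝ)) = Z
    ring
  simp only [h2] at h1
  obtain ⟨D', hD'⟩ : ∃ D', D = D' + 1 := ⟨D - 1, by omega⟩
  set A : ℝ := (P.card : ℝ) ^ u with hA
  have hA0 : 0 < A := by
    have : (0 : ℝ) < P.card := by exact_mod_cast hne.card_pos
    positivity
  have h3 : SS P u (((0 : ℕ) : ℝ) / D) = (A : ℂ) := by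
    simp [SS, ee_zero, hA]
  rw [range_eq_Ico, sum_eq_sum_Ico_succ_bot hD0, h3] at h1
  have h4 : A ^ 864 ≤ ∑ r ∈ Ico (0 + 1) D, ‖SS P u ((r : ℝ) / D)‖ ^ 864 := by
    have h5 := congrArg norm (eq_neg_of_add_eq_zero_left h1)
    rw [norm_neg, norm_mul, norm_ee, mul_one, norm_pow, Complex.norm_real, Real.norm_eq_abs,
      abs_of_pos hA0] at h5
    rw [h5]
    refine (norm_sum_le _ _).trans (le_of_eq ?_)
    apply sum_congr rfl
    intro r _
    rw [norm_mul, norm_ee, mul_one, norm_pow]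
  have h5 : ∀ r : ℕ, ∃ (x : Fin 4 → ℕ) (h : ℝ), r ∈ Ico (0 + 1) D → (0 < x 0 ∧
      x 0 * r + x 3 = x 1 * D + x 2 ∧ (∀ i, (x i : ℝ) ≤ h) ∧ (w' : ℝ) ^ 16 ≤ h ∧
      ‖SS P u ((r : ℝ) / D)‖ ^ 96 * h ≤ A ^ 96) := by
    intro r
    by_cases hr : r ∈ Ico (0 + 1) D
    · obtain ⟨x, h, hx⟩ := arc P w w' u p K ρ hP hρ hρ4 hw hπ hp hpw hD r
        (mem_Ico.1 hr).1 (mem_Ico.1 hr).2
      exact ⟨x, h, fun _ => hx⟩
    · exact ⟨fun _ => 0, 0, fun h => absurd h hr⟩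
  choose x h hx using h5
  have hw17 : (17 : ℝ) ≤ (w' : ℝ) ^ 16 := by
    have h6 : (4 : ℝ) ^ 8 ≤ ρ ^ 8 := by gcongr
    rw [hρ] at h6
    have h7 : (w' : ℝ) ≤ (w' : ℝ) ^ 16 := le_self_pow₀ (by linarith) (by norm_num)
    linarith
  have h6 := sum_inv (Ico (0 + 1) D) x h ((w' : ℝ) ^ 16) (by linarith)
    (by
      intro r hr r' hr' hrr
      obtain ⟨e1, e2, -⟩ := hx r hr
      obtain ⟨-, e3, -⟩ := hx r' hr'
      rw [← hrr] at e3
      exact Nat.eq_of_mul_eq_mul_left e1 (by omega))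
    (fun r hr => (hx r hr).2.2.1) (fun r hr => (hx r hr).2.2.2.1)
  have h7 : ∀ r ∈ Ico (0 + 1) D, ‖SS P u ((r : ℝ) / D)‖ ^ 864 ≤ A ^ 864 * (1 / h r ^ 9) := by
    intro r hr
    obtain ⟨-, -, -, e1, e2⟩ := hx r hr
    have e3 : 0 < h r := by linarith
    have e4 := pow_le_pow_left₀ (mul_nonneg (pow_nonneg (norm_nonneg _) 96) e3.le) e2 9
    rw [mul_pow, ← pow_mul, ← pow_mul] at e4
    rw [mul_one_div, le_div_iff₀ (pow_pos e3 9)]
    exact e4
  have h8 := h4.trans (sum_le_sum h7)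
  rw [← mul_sum] at h8
  have h9 : (16 : ℝ) / (w' : ℝ) ^ 16 < 1 := by
    rw [div_lt_one (by linarith)]; linarith
  have h10 : 0 < A ^ 864 := pow_pos hA0 864
  have h11 := mul_lt_mul_of_pos_left (h6.trans_lt h9) h10
  linarith

end Pool.Agent.MP_d8b1b3_co
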