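import Mathlib
import Pool.Agent.MP_d8b1b3_co.Cover
import Pool.Agent.MP_d8b1b3_co.Arith

/-!
Every number with `n` binary digits is a sum of 865 products of numbers of size polynomial in `n`.
-/

set_option autoImplicit false

namespace Pool.Agent.MP_d8b1b3_co

open Finset

lemma pi_two_pow (L : ℕ) (hL : 8 ≤ L) : 2 ^ L ≤ 2 * L * Nat.primeCounting (2 ^ L) := by
  have h1 := Chebyshev.pi_ge (2 ^ L)
  have hl : 0 < Real.log 2 := Real.log_pos (by norm_num)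
  have hL' : (0 : ℝ) < L := by exact_mod_cast (by omega : 0 < L)
  have h2 : Real.log ((2 ^ L : ℕ) : ℝ) = L * Real.log 2 := by
    push_cast; rw [Real.log_pow]
  have h3 : Real.log (((2 ^ L : ℕ) : ℝ) + 1) ≤ (L + 1) * Real.log 2 := by
    have h4 : (((2 ^ L : ℕ) : ℝ) + 1) ≤ 2 ^ (L + 1) := by
      have : (1 : ℝ) ≤ 2 ^ L := one_le_pow₀ (by norm_num)
      push_cast; rw [pow_succ]; linarith
    have h5 := Real.log_le_log (by positivity) h4
    rw [Real.log_pow] at h5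
    push_cast at h5 ⊢
    exact h5
  rw [h2, div_le_iff₀ (by positivity)] at h1
  have h4 : 2 * (L + 1) ≤ 2 ^ L := by
    obtain ⟨k, rfl⟩ : ∃ k, L = k + 2 := ⟨L - 2, by omega⟩
    have : k < 2 ^ k := Nat.lt_two_pow_self
    rw [pow_add]; omega
  have h4' : 2 * ((L : ℝ) + 1) ≤ ((2 ^ L : ℕ) : ℝ) := by exact_mod_cast h4
  have h5 : ((2 ^ L : ℕ) : ℝ) * Real.log 2 ≤
      (2 * L * Nat.primeCounting (2 ^ L) : ℝ) * Real.log 2 := by nlinarith
  have h6 := le_of_mul_le_mul_right h5 hl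
  exact_mod_cast h6

lemma interval (n κ : ℕ) (hn : 0 < n) (hκ : 0 < κ)
    (h : 4 * n ^ 2 * κ ≤ Nat.primeCounting (4 * n ^ 3 * κ)) :
    ∃ j, n ≤ j ∧ j < 2 * n ^ 2 ∧ ∃ P : Finset ℕ, κ ≤ P.card ∧
      ∀ p ∈ P, p.Prime ∧ j * (2 * n * κ) < p ∧ p ≤ (j + 1) * (2 * n * κ) := by
  set δ := 2 * n * κ with hδ
  have hδ0 : 0 < δ := by positivity
  let s := (Ioc (n * δ) (2 * n ^ 2 * δ)).filter Nat.Prime
  have h1 : n * δ ≤ s.card := by
    rw [← Nat.primesLE_card_eq_primeCounting, Nat.primesLE_eq_filter_Ioc_zero] at h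
    have h2 : (Ioc 0 (4 * n ^ 3 * κ)).filter Nat.Prime ⊆ Ioc 0 (n * δ) ∪ s := by
      intro p hp
      rw [mem_filter, mem_Ioc] at hp
      rw [mem_union, mem_filter, mem_Ioc, mem_Ioc]
      have : 4 * n ^ 3 * κ = 2 * n ^ 2 * δ := by rw [hδ]; ring
      by_cases h3 : p ≤ n * δ
      · exact Or.inl ⟨hp.1.1, h3⟩
      · exact Or.inr ⟨⟨by omega, by omega⟩, hp.2⟩
    have h3 := (card_le_card h2).trans (card_union_le _ _)
    rw [Nat.card_Ioc] at h3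
    have : 4 * n ^ 2 * κ = n * δ + n * δ := by rw [hδ]; ring
    omega
  have h2 : ∀ p ∈ s, (p - 1) / δ ∈ Ico n (2 * n ^ 2) := by
    intro p hp
    rw [mem_filter, mem_Ioc] at hp
    rw [mem_Ico, Nat.le_div_iff_mul_le hδ0, Nat.div_lt_iff_lt_mul hδ0]
    omega
  have h3 : (Ico n (2 * n ^ 2)).Nonempty := ⟨n, mem_Ico.2 ⟨le_rfl, by nlinarith⟩⟩
  have h4 : (Ico n (2 * n ^ 2)).card * κ ≤ s.card := by
    refine le_trans ?_ h1
    rw [Nat.card_Ico]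
    calc (2 * n ^ 2 - n) * κ ≤ 2 * n ^ 2 * κ := Nat.mul_le_mul_right _ (Nat.sub_le _ _)
      _ = n * δ := by rw [hδ]; ring
  obtain ⟨j, hj, hc⟩ := exists_le_card_fiber_of_mul_le_card_of_maps_to h2 h3 h4
  refine ⟨j, (mem_Ico.1 hj).1, (mem_Ico.1 hj).2, _, hc, fun p hp => ?_⟩
  rw [mem_filter, mem_filter, mem_Ioc] at hp
  have h5 := Nat.div_add_mod (p - 1) δ
  have h6 := Nat.mod_lt (p - 1) hδ0
  rw [hp.2, mul_comm] at h5
  have h7 := hp.1.2.pos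
  refine ⟨hp.1.2, by omega, ?_⟩
  rw [add_mul]; omega

lemma succ_pow_le (j s : ℕ) (hj : 0 < j) (hs : s ≤ j) : (j + 1) ^ s ≤ 3 * j ^ s := by
  have hj' : (0 : ℝ) < j := by exact_mod_cast hj
  have h1 : (1 + (j : ℝ)⁻¹) ^ s ≤ 3 := by
    have h2 : (1 : ℝ) ≤ 1 + (j : ℝ)⁻¹ := by
      have : 0 ≤ (j : ℝ)⁻¹ := by positivity
      linarith
    exact (pow_le_pow_right₀ h2 hs).trans
      (Real.one_add_inv_pow_le_exp.trans Real.exp_one_lt_three.le)
  have h2 : ((j : ℝ) + 1) ^ s ≤ 3 * (j : ℝ) ^ s := by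
    calc ((j : ℝ) + 1) ^ s = (1 + (j : ℝ)⁻¹) ^ s * (j : ℝ) ^ s := by
          rw [← mul_pow]; congr 1; field_simp
      _ ≤ _ := by gcongr
  exact_mod_cast h2

lemma exists_primes (l : ℕ) (hl : 12 ≤ l) :
    ∃ (P : Finset ℕ) (w w' : ℕ) (ρ : ℝ), (∀ p ∈ P, p.Prime ∧ w < p ∧ p ≤ w') ∧ ρ ^ 8 = w' ∧ 4 ≤ ρ ∧
      (∀ s, s ≤ 2 ^ l → w' ^ s ≤ 3 * w ^ s) ∧
      (((2 ^ l : ℕ) : ℝ) * w') ^ 4 ≤ ρ * (P.card : ℝ) ^ 4 ∧ P.Nonempty ∧
      2 ^ 16 ≤ w' ∧ w' ≤ 2 ^ (136 * l) := by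
  set n := 2 ^ l with hn
  have hn0 : 0 < n := by positivity
  have hn12 : 2 ^ 12 ≤ n := Nat.pow_le_pow_right (by norm_num) hl
  obtain ⟨κ, hκ⟩ : ∃ κ, 4 * κ = n ^ 133 := by
    refine ⟨2 ^ (133 * l - 2), ?_⟩
    rw [hn, ← pow_mul, show (4 : ℕ) = 2 ^ 2 by norm_num, ← pow_add]
    congr 1; omega
  have hκ0 : 0 < κ := by
    have : 0 < n ^ 133 := by positivity
    omega
  have hy : 4 * n ^ 3 * κ = 2 ^ (136 * l) := by
    calc 4 * n ^ 3 * κ = n ^ 3 * (4 * κ) := by ring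
      _ = n ^ 136 := by rw [hκ, ← pow_add]
      _ = _ := by rw [hn, ← pow_mul, mul_comm]
  have hnl : 272 * l ≤ n := by
    obtain ⟨k, rfl⟩ : ∃ k, l = k + 12 := ⟨l - 12, by omega⟩
    have : k < 2 ^ k := Nat.lt_two_pow_self
    rw [hn, pow_add]; omega
  have hpi : 4 * n ^ 2 * κ ≤ Nat.primeCounting (4 * n ^ 3 * κ) := by
    have h1 := pi_two_pow (136 * l) (by omega)
    rw [← hy] at h1
    have h2 : n * (4 * n ^ 2 * κ) ≤ n * Nat.primeCounting (4 * n ^ 3 * κ) := by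
      calc n * (4 * n ^ 2 * κ) = 4 * n ^ 3 * κ := by ring
        _ ≤ _ := h1
        _ ≤ _ := Nat.mul_le_mul_right _ (by omega)
    exact Nat.le_of_mul_le_mul_left h2 hn0
  obtain ⟨j, hj1, hj2, P, hP1, hP2⟩ := interval n κ hn0 hκ0 hpi
  set w' := (j + 1) * (2 * n * κ) with hw'
  have h1 : w' ≤ 4 * n ^ 3 * κ := by
    calc w' ≤ (2 * n ^ 2) * (2 * n * κ) := Nat.mul_le_mul_right _ hj2
      _ = _ := by ring
  have h2 : (256 * n ^ 16) ^ 8 ≤ w' := by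
    have h3 : 2 * (256 * n ^ 16) ^ 8 ≤ 2 * w' := by
      calc 2 * (256 * n ^ 16) ^ 8 = 2 ^ 65 * n ^ 128 := by ring
        _ ≤ (2 ^ 12) ^ 7 * n ^ 128 := Nat.mul_le_mul_right _ (by norm_num)
        _ ≤ n ^ 7 * n ^ 128 := by gcongr
        _ = n ^ 2 * (4 * κ) := by rw [hκ]; ring
        _ = 2 * (n * (2 * n * κ)) := by ring
        _ ≤ 2 * w' := Nat.mul_le_mul_left _ (Nat.mul_le_mul_right _ (by omega))
    omega
  have hρ : ((w' : ℝ) ^ ((8 : ℕ)⁻¹ : ℝ)) ^ 8 = w' :=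
    Real.rpow_inv_natCast_pow (Nat.cast_nonneg _) (by norm_num)
  set ρ := (w' : ℝ) ^ ((8 : ℕ)⁻¹ : ℝ) with hρdef
  have hρ0 : 0 ≤ ρ := by positivity
  have h3 : 256 * (n : ℝ) ^ 16 ≤ ρ := by
    have h4 : (256 * (n : ℝ) ^ 16) ^ 8 ≤ ρ ^ 8 := by rw [hρ]; exact_mod_cast h2
    exact (pow_le_pow_iff_left₀ (by positivity) hρ0 (by norm_num)).1 h4
  have hn1 : (1 : ℝ) ≤ (n : ℝ) ^ 16 := one_le_pow₀ (by exact_mod_cast hn0)
  refine ⟨P, j * (2 * n * κ), w', ρ, hP2, hρ, by linarith, fun s hs => ?_, ?_,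
    card_pos.1 (by omega), ?_, hy ▸ h1⟩
  · rw [hw', mul_pow (j + 1), mul_pow j, ← mul_assoc]
    exact Nat.mul_le_mul_right _ (succ_pow_le j s (by omega) (by omega))
  · have h4 : (w' : ℝ) ≤ 4 * (n : ℝ) ^ 3 * κ := by exact_mod_cast h1
    have h5 : (κ : ℝ) ≤ P.card := by exact_mod_cast hP1
    calc ((n : ℝ) * w') ^ 4 ≤ ((n : ℝ) * (4 * (n : ℝ) ^ 3 * κ)) ^ 4 := by gcongr
      _ = 256 * (n : ℝ) ^ 16 * (κ : ℝ) ^ 4 := by ring
      _ ≤ _ := by gcongr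
  · refine le_trans ?_ h2
    have h4 : 1 ≤ n ^ 16 := Nat.one_le_pow _ _ hn0
    calc 2 ^ 16 ≤ (256 * 1) ^ 8 := by norm_num
      _ ≤ _ := by gcongr

lemma G_prod {ι : Type} (c : ℕ) (s : Finset ι) (f : ι → ℕ) (h : ∀ i ∈ s, G c (f i)) :
    G c (2 ^ s.card * ∏ i ∈ s, f i) := by
  classical
  induction s using Finset.induction_on with
  | empty => simpa using G_one.mono (Nat.zero_le c)
  | insert a s ha ih =>
    rw [card_insert_of_notMem ha, prod_insert ha]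
    have := (h a (mem_insert_self a s)).mul (ih fun i hi => h i (mem_insert_of_mem hi))
    convert this using 1
    ring

lemma G_sum {ι : Type} (t c e A : ℕ) (hA : G t (2 ^ (e + 1) * A)) (s : Finset ι) (f : ι → ℕ)
    (h : ∀ i ∈ s, G c (2 ^ e * f i)) :
    G (t + s.card * (c + 2)) (2 ^ (e + 1) * (A + ∑ i ∈ s, f i)) := by
  classical
  induction s using Finset.induction_on with
  | empty => simpa using hA
  | insert a s ha ih =>
    rw [card_insert_of_notMem ha, sum_insert ha]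
    have := (ih fun i hi => h i (mem_insert_of_mem hi)).add (h a (mem_insert_self a s))
    convert this using 1
    · ring
    · ring

lemma G_pow_mul (c p z K : ℕ) (hp : G c p) (hz : G c z) : G c (2 ^ K * (p ^ K * z)) := by
  induction K with
  | zero => simpa using hz
  | succ K ih =>
    have := hp.mul ih
    convert this using 1
    ring

lemma smooth (l c : ℕ) (hl : 12 ≤ l) (hc : ∀ x, 0 < x → x ≤ 2 ^ (4624 * l) → G c x)
    (N : ℕ) (hN0 : 0 < N) (hN : N < 2 ^ 2 ^ l) : G (865 * (c + 2)) (2 ^ 2 ^ (l - 3) * N) := by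
  by_cases hsmall : N ≤ 2 ^ (4624 * l)
  · exact ((hc N hN0 hsmall).two_pow_mul _).mono (by omega)
  obtain ⟨P, w, w', ρ, hP, hρ, hρ4, hw, hπ, hne, hw16, hwy⟩ := exists_primes l hl
  have hw1 : 1 < w' := by omega
  have hy : w' ^ 34 ≤ 2 ^ (4624 * l) := by
    calc w' ^ 34 ≤ (2 ^ (136 * l)) ^ 34 := Nat.pow_le_pow_left hwy 34
      _ = _ := by rw [← pow_mul]; congr 1; ring
  have hc' : ∀ x, 0 < x → x ≤ w' ^ 34 → G c x := fun x h1 h2 => hc x h1 (h2.trans hy)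
  have h17 : w' * w' ^ 16 ≤ w' ^ 34 := by
    rw [← pow_succ']; exact Nat.pow_le_pow_right hw1.le (by norm_num)
  have h17' : 2 ^ 16 * w' ^ 16 ≤ w' * w' ^ 16 := Nat.mul_le_mul_right _ hw16
  have hpos : 0 < w' ^ 16 := by positivity
  set N' := (N - 1) / 864 with hN'
  have hN'1 : w' ^ 16 ≤ N' := by
    rw [hN', Nat.le_div_iff_mul_le (by norm_num)]; omega
  set u := Nat.log w' N' with hu
  have hu1 : w' ^ u ≤ N' := Nat.pow_log_le_self _ (by omega)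
  have hu2 : N' < w' ^ (u + 1) := Nat.lt_pow_succ_log_self hw1 _
  have hu16 : 16 ≤ u := Nat.le_log_of_pow_le hw1 hN'1
  have hun : 16 * u < 2 ^ l := by
    have h1 : 2 ^ (16 * u) < 2 ^ 2 ^ l := by
      calc 2 ^ (16 * u) = (2 ^ 16) ^ u := by rw [pow_mul]
        _ ≤ w' ^ u := Nat.pow_le_pow_left hw16 u
        _ < _ := by omega
    exact (Nat.pow_lt_pow_iff_right (by norm_num)).1 h1
  have hl3 : 2 ^ l = 8 * 2 ^ (l - 3) := by
    obtain ⟨k, rfl⟩ : ∃ k, l = k + 3 := ⟨l - 3, by omega⟩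
    rw [Nat.add_sub_cancel, pow_add]; omega
  obtain ⟨e, he⟩ : ∃ e, 2 ^ (l - 3) = e + 1 := ⟨2 ^ (l - 3) - 1, by omega⟩
  have hue : u ≤ e := by omega
  obtain ⟨p, hp, hp1, hp2⟩ := Nat.exists_prime_lt_and_le_two_mul (w' ^ 16) hpos.ne'
  obtain ⟨d, hd⟩ : ∃ d, u = d + 16 := ⟨u - 16, by omega⟩
  set K := Nat.log p (w' ^ d) with hK
  have hK1 : p ^ K ≤ w' ^ d := Nat.pow_log_le_self _ (by positivity)
  have hK2 : w' ^ d < p ^ (K + 1) := Nat.lt_pow_succ_log_self hp.one_lt _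
  have hKd : K ≤ d := by
    have h1 : w' ≤ p := (Nat.le_self_pow (by norm_num) w').trans hp1.le
    exact (Nat.pow_le_pow_iff_right hw1).1 ((Nat.pow_le_pow_left h1 K).trans hK1)
  have hπ' : ((u : ℝ) * w') ^ 4 ≤ ρ * (P.card : ℝ) ^ 4 := by
    refine le_trans ?_ hπ
    have : (u : ℝ) ≤ ((2 ^ l : ℕ) : ℝ) := by exact_mod_cast (by omega : u ≤ 2 ^ l)
    gcongr
  obtain ⟨F, hF⟩ := cover P w w' u p K ρ hP hρ hρ4 (fun s hs => hw s (by omega)) hπ' hne hp hp1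
    (by rw [hd, pow_add]; exact Nat.mul_le_mul_right _ hK1) N
  have hS : ∑ i, pr (F i) ≤ 864 * w' ^ u := by
    have := Finset.sum_le_card_nsmul (univ : Finset (Fin 864)) (fun i => pr (F i)) (w' ^ u)
      (fun i _ => pr_le (fun p hp => (hP p hp).2.2) (F i))
    rwa [card_univ, Fintype.card_fin, smul_eq_mul] at this
  have hcast : (∑ i, (pr (F i) : ℤ)) = ((∑ i, pr (F i) : ℕ) : ℤ) := (Nat.cast_sum _ _).symm
  rw [hcast] at hF
  have hcard : (univ : Finset (Fin 864)).card = 864 := by rw [card_univ, Fintype.card_fin]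
  have hG : ∀ A, G c (2 ^ (e + 1) * A) →
      G (c + 864 * (c + 2)) (2 ^ (e + 1) * (A + ∑ i, pr (F i))) := by
    intro A hA
    have := G_sum c c e A hA (univ : Finset (Fin 864)) (fun i => pr (F i)) (fun i _ => by
      have h1 := G_prod c (univ : Finset (Fin u)) (fun j => (F i j : ℕ)) (fun j _ => by
        obtain ⟨h1, -, h2⟩ := hP _ (F i j).2
        exact hc' _ h1.pos (h2.trans (Nat.le_self_pow (by norm_num) w')))
      rw [card_univ, Fintype.card_fin] at h1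
      exact G.two_pow_mono h1 hue)
    rwa [hcard] at this
  generalize (∑ i, pr (F i)) = S at hS hF hG
  have hSN : S < N := by omega
  have hdvd : p ^ K ∣ N - S := by
    have h1 : ((p ^ K : ℕ) : ℤ) ∣ ((N - S : ℕ) : ℤ) := by
      rw [Nat.cast_sub hSN.le]
      exact dvd_sub_comm.1 hF
    exact_mod_cast h1
  obtain ⟨z, hz⟩ := hdvd
  have hz0 : 0 < z := by
    rcases Nat.eq_zero_or_pos z with h | h
    · rw [h, mul_zero] at hz; omega
    · exact h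
  have hz1 : z ≤ w' ^ 34 := by
    have h1 : p ^ K * z ≤ 864 * w' ^ (u + 1) := by omega
    have h2 : w' ^ d * z ≤ w' ^ d * w' ^ 34 := by
      calc w' ^ d * z ≤ p ^ (K + 1) * z := Nat.mul_le_mul_right _ hK2.le
        _ = p * (p ^ K * z) := by ring
        _ ≤ (2 * w' ^ 16) * (864 * w' ^ (u + 1)) := Nat.mul_le_mul hp2 h1
        _ = 1728 * (w' ^ d * w' ^ 33) := by rw [hd]; ring
        _ ≤ w' * (w' ^ d * w' ^ 33) := Nat.mul_le_mul_right _ (by omega)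
        _ = _ := by ring
    exact Nat.le_of_mul_le_mul_left h2 (by positivity)
  have hA := (G_pow_mul c p z K (hc' p hp.pos (by omega)) (hc' z hz0 hz1)).two_pow_mono
    (by omega : K ≤ e + 1)
  have h1 := hG _ hA
  rw [← hz, Nat.sub_add_cancel hSN.le, ← he] at h1
  exact h1.mono (by clear * -; nlinarith)

end Pool.Agent.MP_d8b1b3_co
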