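import Mathlib
import Pool.Agent.MP_d8b1b3_co.Smooth

/-!
Bootstrapping: one more exponential costs a constant factor.
-/

set_option autoImplicit false

namespace Pool.Agent.MP_d8b1b3_co

lemma G_binary (n : ℕ) : ∀ x, 0 < x → x < 2 ^ n → G (2 * n) x := by
  induction n with
  | zero => intro x h1 h2; omega
  | succ n ih =>
    intro x h1 h2
    rw [pow_succ] at h2
    obtain ⟨y, rfl | rfl⟩ := Nat.even_or_odd' x
    · have := (ih y (by omega) (by omega)).two_pow_mul 1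
      rw [pow_one] at this
      exact this.mono (by omega)
    · rcases Nat.eq_zero_or_pos y with rfl | hy
      · exact G_one.mono (by omega)
      · have := G_one.add (ih y hy (by omega))
        rw [add_comm 1] at this
        exact this.mono (by omega)

lemma matching2 (L c : ℕ) (hL : 12 ≤ L) (hc : ∀ x, 0 < x → x ≤ 2 ^ (4624 * L) → G c x)
    (i : ℕ) (hi : 11 ≤ i) : i ≤ L → ∀ U : ℤ, Odd U →
      ∃ w : ℕ, (2 : ℤ) ^ 2 ^ i ∣ U - w ∧ w < 2 ^ (3 * 2 ^ i) ∧ G (865 * (c + 2) + 2) (2 ^ i * w) := by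
  induction i, hi using Nat.le_induction with
  | base =>
    intro _ U hU
    obtain ⟨a, ha⟩ : ∃ a : ℕ, 2 ^ 11 = a + 1 := ⟨2047, by norm_num⟩
    have ha2 : a + 1 ≤ 4624 * L := by omega
    have h0 : (0 : ℤ) < 2 ^ (a + 1) := by positivity
    have h1 := Int.emod_nonneg U h0.ne'
    have h2 := Int.emod_lt_of_pos U h0
    obtain ⟨w, hw⟩ : ∃ w : ℕ, (w : ℤ) = U % 2 ^ (a + 1) := ⟨_, Int.toNat_of_nonneg h1⟩
    have h3 : (2 : ℤ) ^ (a + 1) ∣ U - w := by rw [hw]; exact Int.dvd_self_sub_emod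
    have h4 : w < 2 ^ (a + 1) := by rw [← hw] at h2; exact_mod_cast h2
    have h5 : 0 < w := by
      rcases Nat.eq_zero_or_pos w with rfl | h
      · exfalso
        obtain ⟨z, hz⟩ := h3
        have : Even U := ⟨2 ^ a * z, by push_cast at hz; linear_combination hz⟩
        exact (Int.not_even_iff_odd.2 hU) this
      · exact h
    refine ⟨w, by rw [ha]; exact h3,
      h4.trans_le (Nat.pow_le_pow_right (by norm_num) (by omega)), ?_⟩
    have h6 : c ≤ 865 * (c + 2) + 2 := by clear * -; nlinarith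
    exact ((hc w h5 (h4.le.trans (Nat.pow_le_pow_right (by norm_num) ha2))).two_pow_mul 11).mono h6
  | succ i hi ih =>
    intro hiL U hU
    obtain ⟨y, ⟨z, hz⟩, hy2, hy3⟩ := ih (by omega) U hU
    obtain ⟨k, rfl⟩ : ∃ k, i = k + 2 := ⟨i - 2, by omega⟩
    obtain ⟨a, ha⟩ : ∃ a, 2 ^ (k + 2) = a + 1 := ⟨2 ^ (k + 2) - 1, by
      have : 0 < 2 ^ (k + 2) := by positivity
      omega⟩
    have hka : 2 ^ k ≤ a := by
      have : 0 < 2 ^ k := by positivity
      rw [pow_add] at ha; omega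
    have ha' : 2 ^ (k + 2 + 1) = 2 * (a + 1) := by rw [pow_succ, ha]; ring
    rw [ha] at hz hy2
    have hyodd : Odd (y : ℤ) := by
      have : (y : ℤ) = U - 2 ^ (a + 1) * z := by linear_combination -hz
      rw [this]
      exact hU.sub_even ⟨2 ^ a * z, by ring⟩
    have hcop : IsCoprime (y : ℤ) ((2 : ℤ) ^ (a + 1)) :=
      IsCoprime.pow_right (Int.isCoprime_two_right.2 hyodd)
    obtain ⟨v, s, hvs⟩ := hcop
    have h0 : (0 : ℤ) < 2 ^ (a + 1) := by positivity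
    have h1 := Int.emod_nonneg (z * v) h0.ne'
    have h2 := Int.emod_lt_of_pos (z * v) h0
    obtain ⟨w, hw⟩ : ∃ w : ℕ, (w : ℤ) = (z * v) % 2 ^ (a + 1) := ⟨_, Int.toNat_of_nonneg h1⟩
    obtain ⟨z', hz'⟩ : (2 : ℤ) ^ (a + 1) ∣ z * v - w := by rw [hw]; exact Int.dvd_self_sub_emod
    have h4 : w < 2 ^ (a + 1) := by rw [← hw] at h2; exact_mod_cast h2
    have h5 : 0 < 2 ^ (a + 1) := by positivity
    refine ⟨y * (1 + 2 * (2 ^ a * (2 ^ (a + 1) + w))), ?_, ?_, ?_⟩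
    · rw [ha']
      refine ⟨z * s + y * z' - y, ?_⟩
      push_cast
      linear_combination hz + (2 : ℤ) ^ (a + 1) * y * hz' - (2 : ℤ) ^ (a + 1) * z * hvs
    · have h6 : 1 + 2 * (2 ^ a * (2 ^ (a + 1) + w)) ≤ 2 ^ (3 * (a + 1)) := by
        have h7 : 2 * (2 ^ a * (2 ^ (a + 1) + w)) = 2 ^ (a + 1) * (2 ^ (a + 1) + w) := by ring
        have h8 : 2 ^ (3 * (a + 1)) = 2 ^ (a + 1) * (2 ^ (a + 1) * 2 ^ (a + 1)) := by ring
        have h9 : 2 ≤ 2 ^ (a + 1) := Nat.le_self_pow (by omega) 2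
        rw [h7, h8]
        generalize 2 ^ (a + 1) = A at *
        have h10 : A + w + 1 ≤ A * A := by nlinarith
        nlinarith
      calc y * (1 + 2 * (2 ^ a * (2 ^ (a + 1) + w))) < 2 ^ (3 * (a + 1)) * 2 ^ (3 * (a + 1)) :=
            Nat.mul_lt_mul_of_lt_of_le hy2 h6 (by positivity)
        _ = _ := by rw [ha', ← pow_add]; congr 1; ring
    · have h6 : 2 ^ (a + 1) + w < 2 ^ 2 ^ (k + 2 + 1) := by
        rw [ha']
        have h9 : 2 ≤ 2 ^ (a + 1) := Nat.le_self_pow (by omega) 2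
        have h8 : 2 ^ (2 * (a + 1)) = 2 ^ (a + 1) * 2 ^ (a + 1) := by ring
        rw [h8]
        generalize 2 ^ (a + 1) = A at *
        nlinarith
      have h7 := smooth (k + 2 + 1) c (by omega)
        (fun x h1 h2 => hc x h1 (h2.trans (Nat.pow_le_pow_right (by norm_num) (by omega))))
        _ (by omega) h6
      rw [show k + 2 + 1 - 3 = k by omega] at h7
      have h8 := G_one.add (h7.two_pow_mono hka)
      rw [zero_add] at h8
      have h9 := hy3.mul h8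
      convert h9 using 1
      ring

lemma step (L c : ℕ) (hL : 12 ≤ L) (hc : ∀ x, 0 < x → x ≤ 2 ^ (4624 * L) → G c x)
    (m : ℕ) : m ≤ L → ∀ x, 0 < x → x < 2 ^ 2 ^ m → G (1731 * c + 3466) x := by
  induction m with
  | zero =>
    intro _ x h1 h2
    have : x = 1 := by omega
    rw [this]
    exact G_one.mono (Nat.zero_le _)
  | succ m ih =>
    intro hm x hx0 hx
    by_cases h15 : m + 1 ≤ 15
    · have h1 : 2 ^ (m + 1) ≤ 2 ^ 15 := Nat.pow_le_pow_right (by norm_num) h15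
      exact (hc x hx0 (hx.le.trans (Nat.pow_le_pow_right (by norm_num) (by omega)))).mono
        (by clear * -; nlinarith)
    by_cases hsm : x < 2 ^ 2 ^ m
    · exact ih (by omega) x hx0 hsm
    obtain ⟨i, rfl⟩ : ∃ i, m = i + 2 := ⟨m - 2, by omega⟩
    obtain ⟨a, ha⟩ : ∃ a, 2 ^ i = a := ⟨_, rfl⟩
    have hia : i + 4 ≤ a := by
      obtain ⟨k, rfl⟩ : ∃ k, i = k + 3 := ⟨i - 3, by omega⟩
      have : k < 2 ^ k := Nat.lt_two_pow_self
      rw [pow_add] at ha; omega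
    have h4a : 2 ^ (i + 2) = 4 * a := by rw [pow_add, ha]; ring
    have hbig : 2 ^ (i + 2) * (2 ^ (3 * a) + 2) ≤ x := by
      rw [h4a] at hsm
      have h1 : 2 ≤ 2 ^ (3 * a) := Nat.le_self_pow (by omega) 2
      calc 2 ^ (i + 2) * (2 ^ (3 * a) + 2) ≤ 2 ^ (i + 2) * (2 * 2 ^ (3 * a)) :=
            Nat.mul_le_mul_left _ (by omega)
        _ = 2 ^ (i + 3 + 3 * a) := by ring
        _ ≤ 2 ^ (4 * a) := Nat.pow_le_pow_right (by norm_num) (by omega)
        _ ≤ x := not_lt.1 hsm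
    obtain ⟨A, hA⟩ : ∃ A, 2 ^ (i + 2) = A := ⟨_, rfl⟩
    have hA0 : 0 < A := by rw [← hA]; positivity
    have hB0 : 0 < 2 ^ (3 * a) := by positivity
    have hAx : A + 1 ≤ x := by rw [hA] at hbig; nlinarith
    obtain ⟨x0, k, hx1, hx2, hx3⟩ : ∃ x0 k, 0 < x0 ∧ x0 ≤ 2 * A ∧ x = x0 + A * (2 * k + 1) := by
      refine ⟨(x - A - 1) % (2 * A) + 1, (x - A - 1) / (2 * A), by omega,
        Nat.mod_lt _ (by omega), ?_⟩
      have := Nat.mod_add_div (x - A - 1) (2 * A)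
      have h2 : A * (2 * ((x - A - 1) / (2 * A)) + 1) = 2 * A * ((x - A - 1) / (2 * A)) + A := by
        ring
      omega
    obtain ⟨W, ⟨z, hz⟩, hW2, hW3⟩ := matching2 L c hL hc i (by omega) (by omega)
      (2 * k + 1) ⟨k, rfl⟩
    rw [ha] at hz hW2
    have hWU : W < 2 * k + 1 := by
      have h1 : A * 2 ^ (3 * a) ≤ A * (2 * k + 1) := by
        rw [hA, mul_add] at hbig; omega
      exact hW2.trans_le (Nat.le_of_mul_le_mul_left h1 hA0)
    have hz0 : 0 < z := by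
      have h3 : (0 : ℤ) < 2 ^ a * z := by
        have : (W : ℤ) < 2 * k + 1 := by exact_mod_cast hWU
        linarith
      exact (pos_iff_pos_of_mul_pos h3).1 (by positivity)
    obtain ⟨N, rfl⟩ : ∃ N : ℕ, z = N := ⟨z.toNat, by omega⟩
    have hN0 : 0 < N := by exact_mod_cast hz0
    have hU : 2 * k + 1 = W + 2 ^ a * N := by
      have : (2 * k + 1 : ℤ) = W + 2 ^ a * N := by linarith
      exact_mod_cast this
    have hNx : N ≤ x := by
      have h1 : N ≤ 2 ^ a * N := Nat.le_mul_of_pos_left _ (by positivity)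
      have h2 : 2 * k + 1 ≤ A * (2 * k + 1) := Nat.le_mul_of_pos_left _ hA0
      omega
    have h7 := smooth (i + 2 + 1) c (by omega)
      (fun x h1 h2 => hc x h1 (h2.trans (Nat.pow_le_pow_right (by norm_num) (by omega))))
      N hN0 (hNx.trans_lt hx)
    rw [show i + 2 + 1 - 3 = i by omega, ha] at h7
    have h8 : G c x0 := hc x0 hx1 (by
      calc x0 ≤ 2 * A := hx2
        _ = 2 ^ (i + 3) := by rw [← hA]; ring
        _ ≤ _ := Nat.pow_le_pow_right (by norm_num) (by omega))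
    have h9 := h8.add ((hW3.two_pow_mono (Nat.le_succ i)).add
      (h7.two_pow_mono (Nat.le_add_left a i)))
    convert h9 using 1
    · ring
    · rw [hx3, hU, ← hA]; simp only [Nat.succ_eq_add_one]; ring

lemma iterate (C : ℕ) (hC1 : 3466 ≤ C) (hC2 : ∀ n, n < 10000 → 2 * 2 ^ (2 * n + 2) ≤ C) (j : ℕ) :
    ∀ n, (Nat.log 2)^[j] n = 0 → ∀ x, 0 < x → x ≤ 2 ^ n ^ 2 → G (C ^ (j + 1)) x := by
  induction j with
  | zero =>
    intro n hn x h1 h2
    have : n = 0 := hn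
    subst this
    have : x = 1 := by simp at h2; omega
    rw [this]
    exact G_one.mono (Nat.zero_le _)
  | succ j ih =>
    intro n hn x h1 h2
    rw [Function.iterate_succ_apply] at hn
    have h3 : n < 2 ^ (Nat.log 2 n + 1) := Nat.lt_pow_succ_log_self (by norm_num) n
    generalize Nat.log 2 n = n' at hn h3
    have h4 : n ^ 2 < 2 ^ (2 * n' + 2) := by
      calc n ^ 2 < (2 ^ (n' + 1)) ^ 2 := Nat.pow_lt_pow_left h3 (by norm_num)
        _ = _ := by ring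
    have h5 : x < 2 ^ 2 ^ (2 * n' + 2) := h2.trans_lt (Nat.pow_lt_pow_right (by norm_num) h4)
    have h6 : C ≤ C ^ (j + 1) := Nat.le_self_pow (by omega) C
    have h7 : 3466 * C ^ (j + 1) ≤ C ^ (j + 1 + 1) := by
      rw [pow_succ C (j + 1), mul_comm]; exact Nat.mul_le_mul_left _ hC1
    by_cases hs : n' < 10000
    · exact (G_binary _ x h1 h5).mono ((hC2 n' hs).trans (by omega))
    · have h8 : 4624 * (2 * n' + 2) ≤ n' ^ 2 := by nlinarith
      exact (step (2 * n' + 2) (C ^ (j + 1)) (by omega)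
        (fun y h1 h2 => ih n' hn y h1 (h2.trans (Nat.pow_le_pow_right (by norm_num) h8)))
        _ le_rfl x h1 h5).mono (by omega)

lemma exists_C (B : ℕ) : ∃ C, 3466 ≤ C ∧ ∀ n, n < B → 2 * 2 ^ (2 * n + 2) ≤ C := by
  refine ⟨3466 + 2 * 2 ^ (2 * B + 2), by omega, fun n hn => ?_⟩
  have : 2 ^ (2 * n + 2) ≤ 2 ^ (2 * B + 2) := Nat.pow_le_pow_right (by norm_num) (by omega)
  omega

lemma logstar : ∃ C : ℕ, ∀ m j t : ℕ, 0 < m → (Nat.log 2)^[j] m = 0 → C ^ j ≤ t →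
    HadOn (Fin (2 ^ t * m)) := by
  obtain ⟨C, hC1, hC2⟩ := exists_C 10000
  refine ⟨C ^ 2 + 2, fun m j t hm hj ht => ?_⟩
  have h1 : m ≤ 2 ^ m ^ 2 :=
    Nat.lt_two_pow_self.le.trans (Nat.pow_le_pow_right (by norm_num) (Nat.le_self_pow (by norm_num) m))
  have h2 := iterate C hC1 hC2 j m hj m hm h1
  obtain ⟨k, rfl⟩ : ∃ k, j = k + 1 := by
    rcases j with _ | k
    · have : m = 0 := hj
      omega
    · exact ⟨k, rfl⟩
  have h3 : C ^ (k + 1 + 1) + 2 ≤ (C ^ 2 + 2) ^ (k + 1) := by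
    have h4 : C ^ k ≤ (C ^ 2 + 2) ^ k := Nat.pow_le_pow_left (by nlinarith) k
    have h5 : 1 ≤ (C ^ 2 + 2) ^ k := Nat.one_le_pow _ _ (by omega)
    have h6 : C ^ (k + 1 + 1) = C ^ k * C ^ 2 := by ring
    rw [pow_succ (C ^ 2 + 2), h6]
    nlinarith [Nat.mul_le_mul_right (C ^ 2) h4]
  obtain ⟨d, rfl⟩ : ∃ d, t = d + 2 := ⟨t - 2, by omega⟩
  exact (h2.mono (by omega)).had hm

end Pool.Agent.MP_d8b1b3_co
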